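import Pool.Agent.Lib.NMB.Def
import Pool.Agent.Lib.NLF.Def

/-!
MP_00e23e_nt, project NLM (all classes, no lock; idea: helper83, helper5), chapter B with parameters (helper3, after helper34's
NLB/Spec.lean): from SLH.DspTStmt (through NLB.BdiNStmt) and BiMStmt to the bilinear theorem NLA.BlN for N in [x^(ν-ε), x^(θ+ε)],
moduli q ≤ x^(1/2+δ) with an ARBITRARY divisor m ≤ x^μ, all primes of q/m are ≤ x^κ, arbitrary reduced classes.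

RULES. Module X: file Pool/Agent/Lib/NMB/X.lean, first line `import Pool.Agent.Lib.NMB.Spec`, then `namespace Pool.Agent.Lib.NMB`
and the two `open` lines below; private lemmas with names starting with X_, final theorem `theorem tX (h1 : AStmt) ... : XStmt`; the
statements listed under Uses are hypotheses of your theorem, in this order. The docstring contains a complete proof. MODEL file: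
copy it and change it. Never use congr!. Every module below 60 s.
Dictionary for the MODELS (Lib/NLB): ParN → ParM, BlkN → BlkM, PrN → PrM, DqN → DqM, BiNStmt → BiMStmt, 1/60 → ν, 2/5 → θ, 1/80 → l,
1/320 → w/4, 1/2560 → w/32, 1/3000 → μ. HgN, BgaN, BdiN, BorN of NLB are used as they are.
From ParM: 10^5 ε ≤ w, δ, κ ≤ ε, μ + w ≤ l, l + w ≤ ν (so ν ≥ 2w), 2ν ≤ θ, 1/3 ≤ θ, 2θ + l + w ≤ 1 (so θ ≤ 1/2 - w, w ≤ 1/6).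
-/

namespace Pool.Agent.Lib.NMB

open Finset Pool.Agent.Lib.EH3 Pool.Agent.Lib.TB Pool.Agent.Results.MP_00e23e_nt Pool.Agent.Lib.MI
open Pool.Agent.Lib.MX (Bd Mz Bd_nonneg Bd_mono rp_le rn_le log_le_T Tau_x)

/-- Module BncM (theorem tBncM; the numbers of the dispersion). Uses: nothing. MODEL: Lib/NLB/BncN.lean.
Proof. κ, δ ≤ ε, 10^5 ε ≤ w. R M ≥ (N x^(-10ε-κ)/2) M ≥ x^(1-12ε)/2 and (R S)^2 ≤ x^(1+2ε), so y := R S^2/M = (R S)^2/(R M) ≤ 2 x^(14ε). N ≥ x^(ν-ε) ≥ x^w ≥ 64, M ≥ x^(1-ε)/N ≥ x^(1-θ-2ε) ≥ x^(1/2) ≥ 8 (θ ≤ 1/2 - w), R ≥ N x^(-11ε)/2 ≥ x^(ν-12ε)/2 > 2 x^(30ε) ≥ 2H, R ≤ N x^(-10ε) ≤ N,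
S ≥ x^(1/2-ε/2)/(4R) ≥ x^(1/2-ε/2+10ε-θ-ε)/4 ≥ x^w/4 ≥ x^(8ε) ≥ G, x^(8ε) ≤ x^(w/4) (naturals: Nat.floor_le_floor) for G ≤ t0. R S^2 = y M ≤ 2 x^(14ε) M ≤ N M. 100 M^2N^2(R S^2)^2 ≤ 100 x^4 ≤ x^30. Hm := 2H + (4 R S^2/M + 1) ≤ 2 x^(30ε) + 8 x^(14ε) + 1 ≤ x^(31ε), 2 R S^2 N Hm ≤ 4 x^(1+45ε) ≤ x^2, x^24 ≤ x^30.
Terms (M N ≤ x): R M^2N = (MN)^2 R/N ≤ x^(2-10ε). M^2N^2/G ≤ 2 x^(2-8ε). R M N^2S^2/G^2 = (MN)^2 y/G^2 ≤ 8 x^(2+14ε-16ε). R^2S^4N^2/H = (MN)^2 y^2/H ≤ 8 x^(2+28ε-30ε). Last: (4y + G) sqrt E0 ≤ 9 x^(14ε) sqrt C0 x^(-15ε) ≤ 9 sqrt C0 x^(-ε). -/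
def BncMStmt : Prop := ∀ μ ν θ l w δ κ ε C0 : ℝ, ParM μ ν θ l w δ κ ε → 0 ≤ C0 → ∃ C x0 : ℝ, 0 ≤ C ∧ 1 ≤ x0 ∧
  ∀ (x z D E0 : ℝ) (M N R S H G : ℕ), x0 ≤ x → 1 ≤ z → 0 ≤ D → 0 ≤ E0 → E0 ≤ C0 * x ^ (-(30 * ε)) →
  BlkM ν θ δ κ ε x M N R S → H = ⌊x ^ (30 * ε)⌋₊ → G = ⌊x ^ (8 * ε)⌋₊ →
  (1 ≤ R ∧ 1 ≤ N ∧ 8 ≤ M ∧ 1 ≤ H ∧ 1 ≤ G ∧ G ≤ S ∧ G ≤ ⌊x ^ (w / 4)⌋₊ ∧ (G : ℝ) ≤ x ^ (8 * ε) ∧ R ≤ N ∧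
    2 * H < R ∧ 100 * (M : ℝ) ^ 2 * (N : ℝ) ^ 2 * (R : ℝ) ^ 2 * (S : ℝ) ^ 4 ≤ x ^ (30 : ℝ) ∧ R * S ^ 2 ≤ M * N ∧
    ((2 * H + (4 * (R * S ^ 2) / M + 1) : ℕ) : ℝ) ≤ x ^ (31 * ε) ∧
    (2 * (R : ℝ) * (S : ℝ) ^ 2 * N * ((2 * H + (4 * (R * S ^ 2) / M + 1) : ℕ) : ℝ)) ^ 12 ≤ x ^ (30 : ℝ)) ∧
  (R : ℝ) * (M : ℝ) ^ 2 * N + (M : ℝ) ^ 2 * (N : ℝ) ^ 2 / z + (M : ℝ) ^ 2 * (N : ℝ) ^ 2 / G +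
      (R : ℝ) * M * (N : ℝ) ^ 2 * (S : ℝ) ^ 2 / (G : ℝ) ^ 2 + (R : ℝ) ^ 2 * (S : ℝ) ^ 4 * (N : ℝ) ^ 2 / H +
      Real.sqrt D * ((M : ℝ) ^ 2 * (N : ℝ) ^ 2) * ((4 * (R * (S : ℝ) ^ 2) / M + G) * Real.sqrt E0) ≤
    C * (1 + Real.sqrt D) * (x ^ 2 * (x ^ (-(ε / 8)) + 1 / z))

/-- Module BbbM (theorem tBbbM; one block). Uses: NLB.BdiNStmt, BncMStmt. MODEL: Lib/NLB/BbbN.lean.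
Proof. H = ⌊x^(30ε)⌋, G = ⌊x^(8ε)⌋, t0 = ⌊x^(w/4)⌋, Hm = 2H + (4 R S^2/M + 1). BiMStmt gives HgN with D = C1 T^A1, E0 = C0 x^(-30ε) for all g ≤ G. BdiN with X = x^30, BncM: square ≤ C T^A (1 + sqrt(C1 T^A1)) x^2 (x^(-ε/8) + 1/z); the end as in the MODEL, η = ε/16 (ε < 1/100 from 10^5 ε ≤ w ≤ 1/6). -/
def BbbMStmt : Prop := ∀ μ ν θ l w δ κ ε : ℝ, ParM μ ν θ l w δ κ ε → BiMStmt μ ν θ l w δ κ ε →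
  ∃ (η C x0 : ℝ) (A0 : ℕ), 0 < η ∧ 0 ≤ C ∧
  ∀ (x T z : ℝ) (a : ℕ → ℕ → ℤ) (ρ : ℕ → ℕ) (M N R S R0 : ℕ) (P : Finset (ℕ × ℕ))
    (f g : ℕ → ℂ), x0 ≤ x → Tau (x ^ (30 : ℝ)) T → 1 ≤ z → z ≤ x → BlkM ν θ δ κ ε x M N R S →
  PrM μ l w κ x a ρ R S R0 P → SL.Pr a R S z P → (∀ m, ‖f m‖ ≤ 1) → (∀ n, ‖g n‖ ≤ 1) →
  ∑ w' ∈ P, ‖∑ m ∈ Ioc M (2 * M), ∑ n ∈ Ioc N (2 * N), f m * g n * Dl (a w'.1 w'.2) w'.1 w'.2 (m * n)‖ ≤ Bd C A0 η x T z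

/-- one modulus q = r (q/r), ρ ∣ r, ρ has a divisor m ≤ x^μ -/
def DqM (μ l w δ κ ε x z : ℝ) (N : ℕ) (a : ℤ) (q r ρ : ℕ) : Prop :=
  (Squarefree q ∧ Int.gcd a q = 1 ∧ (q : ℝ) ≤ x ^ (1 / 2 + δ) ∧ x ^ (1 / 2 - ε / 2) < (q : ℝ)) ∧
  (r ∣ q ∧ (r : ℝ) ≤ N * x ^ (-(10 * ε)) ∧ (N : ℝ) * x ^ (-(10 * ε)) < r * x ^ κ ∧ ∀ p : ℕ, p.Prime → p ∣ q / r → z < p) ∧
  (ρ ∣ r ∧ x ^ l < (ρ : ℝ) ∧ (ρ : ℝ) ≤ x ^ (l + κ)) ∧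
  (∃ m : ℕ, m ∣ ρ ∧ (m : ℝ) ≤ x ^ μ ∧ ∀ p : ℕ, p.Prime → p ∣ ρ / m → (p : ℝ) ≤ x ^ (w / 32)) ∧
  (∀ p : ℕ, p.Prime → p ∣ q / r → (p : ℝ) ≤ x ^ (w / 32)) ∧
  (∀ p : ℕ, p.Prime → p ∣ r / ρ → (p : ℝ) ≤ x ^ κ) ∧
  ∀ p p' : ℕ, p.Prime → p'.Prime → p ∣ r / ρ → p' ∣ q / r → p < p'

/-- Module BdrM (theorem tBdrM; all blocks). Uses: BbbMStmt. MODEL: Lib/NLB/BdrN.lean.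
Proof. Blocks by Nat.log 2 (r q - 1), Nat.log 2 (q/r q - 1), Nat.log 2 (ρ q - 1); r > x^(ν-12ε) ≥ 3, ρ > x^l ≥ 3 (l ≥ w), s = q/r ≥ 2 (q > x^(1/2-ε/2) > r, as r ≤ x^(θ-9ε), θ ≤ 1/2 - w). At most (6 log x)^3 ≤ 216 T^3 blocks. BlkM, PrM for a nonempty block as in the MODEL (x^l < ρ ≤ 2R0, R0 < ρ ≤ x^(l+κ)). P = image of q ↦ (r q, q/r q), A n m = a (n m),
ρ n = ρ q for some q ∈ F with r q = n. -/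
def BdrMStmt : Prop := ∀ μ ν θ l w δ κ ε : ℝ, ParM μ ν θ l w δ κ ε → BiMStmt μ ν θ l w δ κ ε →
  ∃ (η C x0 : ℝ) (A0 : ℕ), 0 < η ∧ 0 ≤ C ∧
  ∀ (x T z : ℝ) (a : ℕ → ℤ) (M N : ℕ) (f g : ℕ → ℂ) (F : Finset ℕ) (r ρ : ℕ → ℕ), x0 ≤ x →
  Tau (x ^ (30 : ℝ)) T → 1 ≤ z → z ≤ x → x ^ (ν - ε) ≤ N → (N : ℝ) ≤ x ^ (θ + ε) →
  x ^ (1 - ε) ≤ (M : ℝ) * N → (M : ℝ) * N ≤ x → (∀ m, ‖f m‖ ≤ 1) → (∀ n, ‖g n‖ ≤ 1) →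
  (∀ q ∈ F, DqM μ l w δ κ ε x z N (a q) q (r q) (ρ q)) → (∀ q ∈ F, ∀ q' ∈ F, r q = r q' → ρ q = ρ q') →
  ∑ q ∈ F, ‖∑ m ∈ Ioc M (2 * M), ∑ n ∈ Ioc N (2 * N), f m * g n * Dl (a q) (r q) (q / r q) (m * n)‖ ≤ Bd C A0 η x T z

/-- Module BdsM (theorem tBdsM; ρ becomes a function of r). Uses: BdrMStmt, MK.FspStmt. MODEL: Lib/NLB/BdsN.lean. -/
def BdsMStmt : Prop := ∀ μ ν θ l w δ κ ε : ℝ, ParM μ ν θ l w δ κ ε → BiMStmt μ ν θ l w δ κ ε →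
  ∃ (η C x0 : ℝ) (A0 : ℕ), 0 < η ∧ 0 ≤ C ∧
  ∀ (x T z : ℝ) (a : ℕ → ℤ) (M N : ℕ) (f g : ℕ → ℂ) (F : Finset ℕ) (r ρ : ℕ → ℕ), x0 ≤ x →
  Tau (x ^ (30 : ℝ)) T → 1 ≤ z → z ≤ x → x ^ (ν - ε) ≤ N → (N : ℝ) ≤ x ^ (θ + ε) →
  x ^ (1 - ε) ≤ (M : ℝ) * N → (M : ℝ) * N ≤ x → (∀ m, ‖f m‖ ≤ 1) → (∀ n, ‖g n‖ ≤ 1) →
  (∀ q ∈ F, DqM μ l w δ κ ε x z N (a q) q (r q) (ρ q)) →
  ∑ q ∈ F, ‖∑ m ∈ Ioc M (2 * M), ∑ n ∈ Ioc N (2 * N), f m * g n * Dl (a q) (r q) (q / r q) (m * n)‖ ≤ Bd C A0 η x T z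

/-- Module BgeM (theorem tBgeM; comparison by the large sieve). Uses: MI.BidStmt, SL.BrgStmt, ML.BlgStmt, MI.LrgStmt.
MODEL: Lib/NLB/BgeN.lean (as it is, with x^(ν-ε) ≤ N, 2 ε ≤ ν; only the bracket of the large sieve uses it: sqrt(M N) sqrt M ≤ x N^(-1/2) ≤ x^(1-ν/2+ε/2) ≤ x/z^(ε/2), as ν ≥ 2ε and z ≤ x). -/
def BgeMStmt : Prop := ∀ δ ε ν : ℝ, 0 ≤ δ → δ ≤ 1 / 10 → 0 < ε → 1000 * ε ≤ 1 → 2 * ε ≤ ν → ∃ (C x0 : ℝ) (A0 : ℕ), 0 ≤ C ∧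
  ∀ (τ x T z : ℝ) (a : ℕ → ℤ) (M N : ℕ) (f g : ℕ → ℂ) (F : Finset ℕ) (t u : ℕ → ℕ), x0 ≤ x →
  Tau (x ^ (30 : ℝ)) T → 1 ≤ z → z ≤ x → N ≤ M → x ^ (ν - ε) ≤ N →
  x ^ (1 - ε) ≤ (M : ℝ) * N → (M : ℝ) * N ≤ x → (∀ m, ‖f m‖ ≤ 1) → (∀ n, ‖g n‖ ≤ 1) →
  (∀ q ∈ F, Mz (1 / 2 + δ) τ z x (t q) q ∧ Int.gcd (a q) q = 1) →
  (∀ q ∈ F, x ^ (1 / 2 - ε / 2) < (q : ℝ) → u q ∣ q / t q ∧ ((t q * u q : ℕ) : ℝ) ≤ x ^ (1 / 2 - ε / 2)) →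
  ∑ q ∈ F, ‖∑ m ∈ Ioc M (2 * M), ∑ n ∈ Ioc N (2 * N), f m * g n * Ek (a q) (t q) q (m * n)‖ ≤
    ∑ q ∈ F.filter (fun q : ℕ => x ^ (1 / 2 - ε / 2) < (q : ℝ)), ‖∑ m ∈ Ioc M (2 * M), ∑ n ∈ Ioc N (2 * N),
      f m * g n * Dl (a q) (t q * u q) (q / (t q * u q)) (m * n)‖ + Bd C A0 (ε / 2) x T z

/-- Module BfiM (theorem tBfiM; THE BILINEAR THEOREM). Uses: BdsMStmt, NLB.BorNStmt, BgeMStmt. MODEL: Lib/NLB/BfiN.lean.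
Proof. N ≤ M from N ≤ x^(θ+ε), θ ≤ 1/2 - w, M N ≥ x^(1-ε). m = m q by choice. For q ∈ F, q > x^(1/2-ε/2): c = lcm (m q) (t q) ≤ x^(μ+ε/16) ≤ x^(l+κ) =: Z1 ≤ N x^(-10ε) =: Z2 ≤ x^(1/2-ε/2) < q. BorN with q, c, Z2, y = x^κ (the primes of q/c divide q/m): r (r ≠ q), c ∣ r, Z2 < r x^κ, primes of r/c < primes of q/r.
BorN with r, c, Z1, y = x^κ: ρ (≠ r, since r > x^(ν-12ε) ≥ x^(l+κ) = Z1), c ∣ ρ ∣ r, ρ ≤ Z1 < ρ x^κ, so ρ > x^l. The primes of r/ρ divide r/c and q/m. DqM: m ∣ c ∣ ρ, the primes of ρ/m and of q/r divide q/m: ≤ x^κ ≤ x^(w/32). t q ∣ c ∣ r, so the primes of q/r divide q/t q and are > z. u q = r/t q. BgeM, BdsM as in the MODEL. -/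
def BfiMStmt : Prop := ∀ μ ν θ l w δ κ ε : ℝ, ParM μ ν θ l w δ κ ε → BiMStmt μ ν θ l w δ κ ε →
  NLA.BlN (NLF.Hq (NLF.Smq μ κ)) (1 / 2 + δ) (ε / 16) ν θ ε

end Pool.Agent.Lib.NMB
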