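import Pool.Agent.Lib.NMB.Spec

/-!
MP_00e23e_nt, project NLM (all classes, no lock), chapter B with parameters: one block.
-/

set_option autoImplicit false

namespace Pool.Agent.Lib.NMB

open Finset Pool.Agent.Lib.EH3 Pool.Agent.Lib.TB Pool.Agent.Results.MP_00e23e_nt Pool.Agent.Lib.MI
open Pool.Agent.Lib.MX (Bd Mz Bd_nonneg Bd_mono rp_le rn_le log_le_T Tau_x)

/-- the square root -/
private lemma BbbM_rt {s x z ε C T : ℝ} {A : ℕ} (hs : 0 ≤ s) (hx : 0 ≤ x) (hz : 1 ≤ z) (hC : 0 ≤ C) (hT : 1 ≤ T)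
    (h : s ^ 2 ≤ C * T ^ A * (x ^ 2 * (1 / z ^ ε))) : s ≤ Bd (Real.sqrt C) A (ε / 2) x T z := by
  have hz0 : 0 < z := by linarith
  have h1 : 0 < z ^ (ε / 2) := Real.rpow_pos_of_pos hz0 _
  have h2 : z ^ ε = z ^ (ε / 2) * z ^ (ε / 2) := by
    rw [← Real.rpow_add hz0]
    ring_nf
  have h3 : (1 : ℝ) ≤ T ^ A := one_le_pow₀ hT
  unfold MX.Bd
  refine (pow_le_pow_iff_left₀ hs (by positivity) (by norm_num : 2 ≠ 0)).1 ?_
  refine h.trans ?_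
  have h4 : (Real.sqrt C * T ^ A * (x / z ^ (ε / 2))) ^ 2 = C * T ^ A * (x ^ 2 * (1 / z ^ ε)) * T ^ A := by
    rw [mul_pow, mul_pow, Real.sq_sqrt hC, h2, div_pow]
    ring
  rw [h4]
  refine le_mul_of_one_le_right ?_ h3
  positivity

/-- the square root of D -/
private lemma BbbM_sq {C T : ℝ} {A : ℕ} (hC : 0 ≤ C) (hT : 1 ≤ T) : 1 + Real.sqrt (C * T ^ A) ≤ (2 + C) * T ^ A := by
  have h1 : (1 : ℝ) ≤ T ^ A := one_le_pow₀ hT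
  have h2 : Real.sqrt (C * T ^ A) ≤ (1 + C) * T ^ A := by
    rw [Real.sqrt_le_left (by positivity)]
    have h3 : C ≤ (1 + C) ^ 2 := by nlinarith
    have h4 : T ^ A ≤ (T ^ A) ^ 2 := by nlinarith
    calc C * T ^ A ≤ (1 + C) ^ 2 * (T ^ A) ^ 2 := by gcongr
      _ = _ := by ring
  nlinarith

/-- the final estimate of the square -/
private lemma BbbM_fin {s x z ε B C1 C2 C3 T : ℝ} {A1 A2 : ℕ} (hx : 1 ≤ x) (hz : 1 ≤ z) (hzx : z ≤ x)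
    (hε0 : 0 < ε) (hε : ε < 1 / 100) (hC1 : 0 ≤ C1) (hC2 : 0 ≤ C2) (hC3 : 0 ≤ C3) (hT : 1 ≤ T)
    (h1 : s ^ 2 ≤ C2 * T ^ A2 * B)
    (h2 : B ≤ C3 * (1 + Real.sqrt (C1 * T ^ A1)) * (x ^ 2 * (x ^ (-(ε / 8)) + 1 / z))) :
    s ^ 2 ≤ (C2 * (2 * (C3 * (2 + C1)))) * T ^ (A2 + A1) * (x ^ 2 * (1 / z ^ (ε / 8))) := by
  have hz0 : 0 < z := by linarith
  have hzε : 0 < z ^ (ε / 8) := Real.rpow_pos_of_pos hz0 _
  obtain ⟨q, hq⟩ : ∃ q : ℝ, q = 1 / z ^ (ε / 8) := ⟨_, rfl⟩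
  have hq0 : 0 < q := by
    rw [hq]
    positivity
  rw [← hq]
  have hxε : x ^ (-(ε / 8)) ≤ q := by
    rw [hq]
    exact rn_le hz hzx (by linarith)
  have hzq : 1 / z ≤ q := by
    rw [hq]
    refine div_le_div_of_nonneg_left zero_le_one hzε ?_
    calc z ^ (ε / 8) ≤ z ^ (1 : ℝ) := Real.rpow_le_rpow_of_exponent_le hz (by linarith)
      _ = z := Real.rpow_one z
  have h3 : x ^ 2 * (x ^ (-(ε / 8)) + 1 / z) ≤ x ^ 2 * (2 * q) :=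
    mul_le_mul_of_nonneg_left (by linarith) (by positivity)
  have hT0 : 0 < T := by linarith
  have h4 : B ≤ C3 * ((2 + C1) * T ^ A1) * (x ^ 2 * (2 * q)) := by
    refine h2.trans ?_
    have h5 : 0 ≤ x ^ (-(ε / 8)) + 1 / z := by positivity
    exact mul_le_mul (mul_le_mul_of_nonneg_left (BbbM_sq hC1 hT) hC3) h3 (by positivity) (by positivity)
  calc s ^ 2 ≤ C2 * T ^ A2 * B := h1
    _ ≤ C2 * T ^ A2 * (C3 * ((2 + C1) * T ^ A1) * (x ^ 2 * (2 * q))) :=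
        mul_le_mul_of_nonneg_left h4 (by positivity)
    _ = _ := by
        rw [pow_add]
        ring

theorem tBbbM (h1 : NLB.BdiNStmt) (h2 : BncMStmt) : BbbMStmt := by
  intro μ ν θ l w δ κ ε hPar hBi
  obtain ⟨C1, C0, x1, A1, hC1, hC0, hI⟩ := hBi
  obtain ⟨C2, hC2, A2, hD⟩ := h1
  obtain ⟨C3, x3, hC3, hx3, hN⟩ := h2 μ ν θ l w δ κ ε C0 hPar hC0
  have hκ : 0 < κ := hPar.2.2.2.1.1
  have hε : 0 < ε := hκ.trans_le hPar.2.2.2.1.2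
  have hε1 : ε < 1 / 100 := by
    have e1 := hPar.2.2.2.2
    have e2 := hPar.1
    have e3 := hPar.2.1
    linarith
  refine ⟨ε / 16, Real.sqrt (C2 * (2 * (C3 * (2 + C1)))), max x1 x3, A2 + A1, by linarith, Real.sqrt_nonneg _, ?_⟩
  intro x T z a ρ M N R S R0 P f g hx hT hz hzx hBlk hPr hSPr hf hg
  have hx1 : x1 ≤ x := (le_max_left _ _).trans hx
  have hx3x : x3 ≤ x := (le_max_right _ _).trans hx
  have hx1' : 1 ≤ x := hx3.trans hx3x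
  have hx0 : 0 < x := by linarith
  have hT1 : 1 ≤ T := hT.1
  have hS : 1 ≤ S := hBlk.2.1
  obtain ⟨H, hH⟩ : ∃ H : ℕ, H = ⌊x ^ (30 * ε)⌋₊ := ⟨_, rfl⟩
  obtain ⟨G, hG⟩ : ∃ G : ℕ, G = ⌊x ^ (8 * ε)⌋₊ := ⟨_, rfl⟩
  have hD0 : 0 ≤ C1 * T ^ A1 := mul_nonneg hC1.le (by positivity)
  have hE0 : 0 ≤ C0 * x ^ (-(30 * ε)) := mul_nonneg hC0 (Real.rpow_pos_of_pos hx0 _).le
  obtain ⟨⟨b1, b2, b3, b4, b5, b6, b7, b8, b9, b10, b11, b12, b13, b14⟩, b15⟩ :=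
    hN x z (C1 * T ^ A1) (C0 * x ^ (-(30 * ε))) M N R S H G hx3x hz hD0 hE0 le_rfl hBlk hH hG
  have key := hD (x ^ (30 : ℝ)) T z (C1 * T ^ A1) (C0 * x ^ (-(30 * ε))) a R S M N H G ⌊x ^ (w / 4)⌋₊ P f g
    hT hz hD0 hE0 b1 hS b2 b3 b4 b5 b6 b7 b9 b10 b11 b12 hSPr
    (fun k hk => by
      obtain ⟨hk1, hk2⟩ := Finset.mem_Icc.1 hk
      exact hI x T a ρ k M N R S R0 (2 * H + (4 * (R * S ^ 2) / M + 1)) P hx1 hT hBlk b1 b9 hk1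
        ((Nat.cast_le.2 hk2).trans b8) b13 b14 hPr) hf hg
  have key2 := BbbM_fin hx1' hz hzx hε hε1 hC1.le hC2.le hC3 hT1 key b15
  have key3 := BbbM_rt (Finset.sum_nonneg fun w _ => norm_nonneg _) hx0.le hz (by positivity) hT1 key2
  have h16 : ε / 8 / 2 = ε / 16 := by ring
  rw [h16] at key3
  exact key3

end Pool.Agent.Lib.NMB
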