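import Pool.Agent.Lib.NMB.Spec

/-!
MP_00e23e_nt, project NLM, chapter B, module BdsM (helper27): ρ becomes a function of r.
-/

set_option autoImplicit false

namespace Pool.Agent.Lib.NMB

open Finset Pool.Agent.Lib.EH3 Pool.Agent.Lib.TB Pool.Agent.Results.MP_00e23e_nt Pool.Agent.Lib.MI
open Pool.Agent.Lib.MX (Bd Mz Bd_nonneg Bd_mono rp_le rn_le log_le_T Tau_x)

/-- splitting by a divisor of m q -/
private lemma BdsM_split (h : MK.FspStmt) {x T B : ℝ} (hT : Tau x T) (hB : 0 ≤ B) (M : Finset ℕ) (s m : ℕ → ℕ)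
    (g : ℕ → ℝ) (hd : ∀ q ∈ M, s q ∣ m q ∧ 1 ≤ m q ∧ (m q : ℝ) ≤ x)
    (hG : ∀ G : Finset ℕ, G ⊆ M → (∀ q ∈ G, ∀ q' ∈ G, m q = m q' → s q = s q') → ∑ q ∈ G, g q ≤ B) :
    ∑ q ∈ M, g q ≤ T * B := by
  have hTpos : 0 ≤ T := by linarith [hT.1]
  refine h M (fun q => (s q : ℤ)) m T B g hTpos hB ?_ ?_
  · intro n
    rcases (M.filter (fun q => m q = n)).eq_empty_or_nonempty with h0 | ⟨q0, hq0⟩
    · rw [h0, Finset.image_empty, Finset.card_empty, Nat.cast_zero]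
      exact hTpos
    · rw [Finset.mem_filter] at hq0
      obtain ⟨d1, d2, d3⟩ := hd q0 hq0.1
      rw [hq0.2] at d2 d3
      refine le_trans ?_ (hT.2.2 n d2 d3)
      have hsub : (M.filter (fun q => m q = n)).image (fun q => (s q : ℤ)) ⊆
          n.divisors.image (fun d : ℕ => (d : ℤ)) := by
        intro b hb
        obtain ⟨q, hq, rfl⟩ := Finset.mem_image.1 hb
        rw [Finset.mem_filter] at hq
        refine Finset.mem_image.2 ⟨s q, ?_, rfl⟩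
        rw [Nat.mem_divisors, ← hq.2]
        exact ⟨(hd q hq.1).1, by have := (hd q hq.1).2.1; omega⟩
      exact_mod_cast (Finset.card_le_card hsub).trans Finset.card_image_le
  · intro G a' hGM ha'
    refine hG G hGM fun q hq q' hq' he => ?_
    have a1 := ha' q hq
    have a2 := ha' q' hq'
    rw [he, ← a2] at a1
    exact_mod_cast a1

theorem tBdsM (h1 : BdrMStmt) (h2 : MK.FspStmt) : BdsMStmt := by
  classical
  intro μ ν θ l w δ κ ε hP hB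
  obtain ⟨η1, C1, x1, A1, hη1, hC1, hBdr⟩ := h1 μ ν θ l w δ κ ε hP hB
  obtain ⟨⟨hμ, hw, hμl, hlν⟩, ⟨hνθ, hθ, hθl⟩, ⟨hδ, hδ1⟩, ⟨hκ, hκ1⟩, hε1⟩ := id hP
  refine ⟨η1, C1, max x1 1, A1 + 1, hη1, hC1, ?_⟩
  intro x T z a M N f g F r ρ hx hT hz hzx hN hN' hMN hMNx hf hg hF
  have hx1 : x1 ≤ x := (le_max_left _ _).trans hx
  have hx1' : 1 ≤ x := (le_max_right _ _).trans hx
  have hx0 : 0 < x := by linarith
  have hTx := Tau_x hx1' hT
  have hT1 : 1 ≤ T := hT.1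
  have hBd0 : 0 ≤ Bd C1 A1 η1 x T z := Bd_nonneg hC1 hT1 hx0.le hz
  have hq0 : ∀ q ∈ F, 0 < q := fun q hq => Nat.pos_of_ne_zero (hF q hq).1.1.ne_zero
  have key : ∑ q ∈ F, ‖∑ m ∈ Ioc M (2 * M), ∑ n ∈ Ioc N (2 * N),
      f m * g n * Dl (a q) (r q) (q / r q) (m * n)‖ ≤ T * Bd C1 A1 η1 x T z := by
    refine BdsM_split h2 hTx hBd0 F ρ r _ ?_ ?_
    · intro q hq
      obtain ⟨⟨-, -, hqx, -⟩, ⟨hrq, -⟩, ⟨hρ, -⟩, -⟩ := hF q hq
      refine ⟨hρ, Nat.pos_of_dvd_of_pos hrq (hq0 q hq), ?_⟩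
      have e1 : r q ≤ q := Nat.le_of_dvd (hq0 q hq) hrq
      have e2 : x ^ (1 / 2 + δ) ≤ x ^ (1 : ℝ) := Real.rpow_le_rpow_of_exponent_le hx1' (by linarith)
      rw [Real.rpow_one] at e2
      exact le_trans (by exact_mod_cast e1) (hqx.trans e2)
    · intro G hG hfun
      exact hBdr x T z a M N f g G r ρ hx1 hT hz hzx hN hN' hMN hMNx hf hg (fun q hq => hF q (hG hq)) hfun
  refine key.trans (le_of_eq ?_)
  unfold MX.Bd
  ring

end Pool.Agent.Lib.NMB
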