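import Pool.Agent.Lib.NMB.Spec

set_option autoImplicit false

/-! MP_00e23e_nt, Lib/NMB, module BfiM: the bilinear theorem of project NLM (adapted from Lib/NLB/BfiN). -/

namespace Pool.Agent.Lib.NMB

open Finset Pool.Agent.Lib.EH3 Pool.Agent.Lib.TB Pool.Agent.Results.MP_00e23e_nt Pool.Agent.Lib.MI
open Pool.Agent.Lib.MX (Bd Mz Bd_nonneg Bd_mono rp_le rn_le log_le_T Tau_x)

/-- the divisors r and ρ of one modulus q -/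
private lemma BfiM_div (h : NLB.BorNStmt) {q m t : ℕ} {x κ Z1 Z2 z : ℝ} (hx : 1 ≤ x) (hsq : Squarefree q) (hm : m ∣ q)
    (ht : t ∣ q) (hmt : (m : ℝ) * t ≤ Z1) (hZ : Z1 * x ^ κ < Z2) (hκ0 : 0 ≤ κ) (hZq : Z2 < (q : ℝ)) (hZ1 : 0 ≤ Z1)
    (hsm : ∀ p : ℕ, p.Prime → p ∣ q / m → (p : ℝ) ≤ x ^ κ)
    (hz : ∀ p : ℕ, p.Prime → p ∣ q / t → z < p) :
    ∃ r ρ : ℕ, m ∣ ρ ∧ t ∣ r ∧ r ∣ q ∧ (r : ℝ) ≤ Z2 ∧ Z2 < r * x ^ κ ∧ (∀ p : ℕ, p.Prime → p ∣ q / r → z < p) ∧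
      ρ ∣ r ∧ (ρ : ℝ) ≤ Z1 ∧ Z1 < ρ * x ^ κ ∧ (∀ p : ℕ, p.Prime → p ∣ r / ρ → (p : ℝ) ≤ x ^ κ) ∧
      ∀ p p' : ℕ, p.Prime → p'.Prime → p ∣ r / ρ → p' ∣ q / r → p < p' := by
  have hq0 : 0 < q := Nat.pos_of_ne_zero hsq.ne_zero
  have hm0 : 0 < m := Nat.pos_of_dvd_of_pos hm hq0
  have ht0 : 0 < t := Nat.pos_of_dvd_of_pos ht hq0
  have hxk : 1 ≤ x ^ κ := Real.one_le_rpow hx hκ0
  have hc : Nat.lcm m t ∣ q := Nat.lcm_dvd hm ht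
  have hmc : m ∣ Nat.lcm m t := Nat.dvd_lcm_left m t
  have htc : t ∣ Nat.lcm m t := Nat.dvd_lcm_right m t
  have hcle : ((Nat.lcm m t : ℕ) : ℝ) ≤ Z1 := by
    refine le_trans ?_ hmt
    have : Nat.lcm m t ≤ m * t := Nat.le_of_dvd (Nat.mul_pos hm0 ht0) (Nat.lcm_dvd_mul m t)
    exact_mod_cast this
  have hZ12 : Z1 < Z2 := by
    refine lt_of_le_of_lt ?_ hZ
    nlinarith
  have hsmc : ∀ p : ℕ, p.Prime → p ∣ q / Nat.lcm m t → (p : ℝ) ≤ x ^ κ := by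
    intro p hp hpd
    exact hsm p hp (hpd.trans (Nat.div_dvd_div_left hc hmc))
  obtain ⟨r, r1, r2, r3, r4, r5⟩ := h q (Nat.lcm m t) Z2 (x ^ κ) hsq hc (hcle.trans hZ12.le) hsmc
  have hrq : r ≠ q := by
    rintro rfl
    exact absurd r3 (not_le.2 hZq)
  have r4' : Z2 < (r : ℝ) * x ^ κ := r4.resolve_left hrq
  have hr0 : 0 < r := Nat.pos_of_dvd_of_pos r2 hq0
  have hsq' : Squarefree r := hsq.squarefree_of_dvd r2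
  obtain ⟨ρ, s1, s2, s3, s4, s5⟩ := h r (Nat.lcm m t) Z1 (x ^ κ) hsq' r1 hcle (by
    intro p hp hpd
    exact hsmc p hp (hpd.trans (Nat.div_dvd_div r1 r2)))
  have hρr : ρ ≠ r := by
    rintro rfl
    have : Z2 < Z1 * x ^ κ := lt_of_lt_of_le r4' (mul_le_mul_of_nonneg_right s3 (by linarith))
    linarith
  have s4' : Z1 < (ρ : ℝ) * x ^ κ := s4.resolve_left hρr
  refine ⟨r, ρ, hmc.trans s1, htc.trans r1, r2, r3, r4', ?_, s2, s3, s4', ?_, ?_⟩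
  · intro p hp hpd
    exact hz p hp (hpd.trans (Nat.div_dvd_div_left r2 (htc.trans r1)))
  · intro p hp hpd
    have h1 : r / ρ ∣ r / Nat.lcm m t := Nat.div_dvd_div_left s2 s1
    exact hsmc p hp ((hpd.trans h1).trans (Nat.div_dvd_div r1 r2))
  · intro p p' hp hp' hpd hpd'
    have h1 : r / ρ ∣ r / Nat.lcm m t := Nat.div_dvd_div_left s2 s1
    exact r5 p p' hp hp' (hpd.trans h1) hpd'

theorem tBfiM (h1 : BdsMStmt) (h2 : NLB.BorNStmt) (h3 : BgeMStmt) : BfiMStmt := by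
  classical
  intro μ ν θ l w δ κ ε hP hB
  obtain ⟨⟨hμ, hw, hl, hν⟩, ⟨hθ1, hθ2, hθ3⟩, ⟨hδ, hδ1⟩, ⟨hκ, hκ1⟩, hp1⟩ := id hP
  have hε : 0 < ε := lt_of_lt_of_le hκ hκ1
  obtain ⟨ηd, Cd, xd, Ad, hηd, hCd, hds⟩ := h1 μ ν θ l w δ κ ε hP hB
  obtain ⟨Cg, xg, Ag, hCg, hge⟩ := h3 δ ε ν hδ (by linarith) hε (by linarith) (by linarith)
  refine ⟨min ηd (ε / 2), Cd + Cg, max (max xd xg) 2, max Ad Ag, lt_min hηd (by linarith), by positivity, ?_⟩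
  intro x T z a M N f g F t hx hT hz hzx hN hN2 hMN1 hMN2 hf hg hF hΦ
  have hxd : xd ≤ x := ((le_max_left _ _).trans (le_max_left _ _)).trans hx
  have hxg : xg ≤ x := ((le_max_right _ _).trans (le_max_left _ _)).trans hx
  have hx2 : 2 ≤ x := (le_max_right _ _).trans hx
  have hx1 : 1 ≤ x := by linarith
  have hx1' : 1 < x := by linarith
  have hx0 : 0 < x := by linarith
  have hT1 : 1 ≤ T := hT.1
  have hpow : ∀ a b : ℝ, a ≤ b → x ^ a ≤ x ^ b := fun a b hab => Real.rpow_le_rpow_of_exponent_le hx1 hab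
  have hNpos : (0 : ℝ) < N := lt_of_lt_of_le (Real.rpow_pos_of_pos hx0 _) hN
  have hNM : N ≤ M := by
    have e1 : (N : ℝ) * N ≤ (M : ℝ) * N := by
      calc (N : ℝ) * N ≤ x ^ (θ + ε) * x ^ (θ + ε) :=
            mul_le_mul hN2 hN2 hNpos.le (Real.rpow_nonneg hx0.le _)
        _ = x ^ (θ + ε + (θ + ε)) := (Real.rpow_add hx0 _ _).symm
        _ ≤ x ^ (1 - ε) := hpow _ _ (by linarith)
        _ ≤ (M : ℝ) * N := hMN1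
    have e2 : (N : ℝ) ≤ M := le_of_mul_le_mul_right e1 hNpos
    exact_mod_cast e2
  have hΦ' : ∀ q ∈ F, ∃ m : ℕ, m ∣ q ∧ (m : ℝ) ≤ x ^ μ ∧ ∀ p : ℕ, p.Prime → p ∣ q / m → (p : ℝ) ≤ x ^ κ := hΦ
  choose! m hm1 hm2 hm3 using hΦ'
  obtain ⟨Z2, hZ2⟩ : ∃ Z : ℝ, Z = N * x ^ (-(10 * ε)) := ⟨_, rfl⟩
  obtain ⟨Z1, hZ1⟩ : ∃ Z : ℝ, Z = x ^ (l + κ) := ⟨_, rfl⟩
  have hZ1p : 0 ≤ Z1 := by
    rw [hZ1]
    exact Real.rpow_nonneg hx0.le _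
  have hZ2q : Z2 ≤ x ^ (1 / 2 - ε / 2) := by
    rw [hZ2]
    calc (N : ℝ) * x ^ (-(10 * ε)) ≤ x ^ (θ + ε) * x ^ (-(10 * ε)) :=
          mul_le_mul_of_nonneg_right hN2 (Real.rpow_nonneg hx0.le _)
      _ = x ^ (θ + ε + -(10 * ε)) := (Real.rpow_add hx0 _ _).symm
      _ ≤ x ^ (1 / 2 - ε / 2) := hpow _ _ (by linarith)
  have hZ12 : Z1 * x ^ κ < Z2 := by
    rw [hZ1, hZ2]
    calc x ^ (l + κ) * x ^ κ = x ^ (l + κ + κ) := (Real.rpow_add hx0 _ _).symm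
      _ < x ^ (ν - ε + -(10 * ε)) := Real.rpow_lt_rpow_of_exponent_lt hx1' (by linarith)
      _ = x ^ (ν - ε) * x ^ (-(10 * ε)) := Real.rpow_add hx0 _ _
      _ ≤ N * x ^ (-(10 * ε)) := mul_le_mul_of_nonneg_right hN (Real.rpow_nonneg hx0.le _)
  have hex : ∀ q : ℕ, ∃ r ρ : ℕ, q ∈ F → x ^ (1 / 2 - ε / 2) < (q : ℝ) →
      (m q ∣ ρ ∧ t q ∣ r ∧ r ∣ q ∧ (r : ℝ) ≤ Z2 ∧ Z2 < r * x ^ κ ∧ (∀ p : ℕ, p.Prime → p ∣ q / r → z < p) ∧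
      ρ ∣ r ∧ (ρ : ℝ) ≤ Z1 ∧ Z1 < ρ * x ^ κ ∧ (∀ p : ℕ, p.Prime → p ∣ r / ρ → (p : ℝ) ≤ x ^ κ) ∧
      ∀ p p' : ℕ, p.Prime → p'.Prime → p ∣ r / ρ → p' ∣ q / r → p < p') := by
    intro q
    by_cases hq : q ∈ F
    · by_cases hq2 : x ^ (1 / 2 - ε / 2) < (q : ℝ)
      · obtain ⟨⟨e1, e2, e3, e4, e5⟩, e6⟩ := hF q hq
        have hmt : (m q : ℝ) * t q ≤ Z1 := by
          rw [hZ1]
          calc (m q : ℝ) * t q ≤ x ^ (μ) * x ^ (ε / 16) :=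
                mul_le_mul (hm2 q hq) e4 (Nat.cast_nonneg _) (Real.rpow_nonneg hx0.le _)
            _ = x ^ (μ + ε / 16) := (Real.rpow_add hx0 _ _).symm
            _ ≤ x ^ (l + κ) := hpow _ _ (by linarith)
        obtain ⟨r, ρ, hr⟩ := BfiM_div h2 hx1 e1 (hm1 q hq) e2 hmt hZ12 hκ.le (lt_of_le_of_lt hZ2q hq2) hZ1p
          (hm3 q hq) e5
        exact ⟨r, ρ, fun _ _ => hr⟩
      · exact ⟨0, 0, fun _ h => absurd h hq2⟩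
    · exact ⟨0, 0, fun h => absurd h hq⟩
  choose r ρ hr using hex
  obtain ⟨F2, hF2⟩ : ∃ F2 : Finset ℕ, F2 = F.filter (fun q : ℕ => x ^ (1 / 2 - ε / 2) < (q : ℝ)) := ⟨_, rfl⟩
  have hF2m : ∀ q ∈ F2, q ∈ F ∧ x ^ (1 / 2 - ε / 2) < (q : ℝ) := by
    intro q hq
    rw [hF2, mem_filter] at hq
    exact hq
  have hge' := hge (ε / 16) x T z a M N f g F t (fun q => r q / t q) hxg hT hz hzx hNM hN hMN1 hMN2 hf hg hF (by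
    intro q hq hq2
    obtain ⟨i1, i2, i3, i4, i5, i6⟩ := hr q hq hq2
    obtain ⟨⟨e1, e2, e3, e4, e5⟩, e6⟩ := hF q hq
    refine ⟨Nat.div_dvd_div i2 i3, ?_⟩
    rw [Nat.mul_div_cancel' i2]
    exact i4.trans hZ2q)
  have hds' := hds x T z a M N f g F2 r ρ hxd hT hz hzx hN hN2 hMN1 hMN2 hf hg (by
    intro q hq
    obtain ⟨hq1, hq2⟩ := hF2m q hq
    obtain ⟨i1, i2, i3, i4, i5, i6, i7, i8, i9, i10, i11⟩ := hr q hq1 hq2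
    obtain ⟨⟨e1, e2, e3, e4, e5⟩, e6⟩ := hF q hq1
    rw [hZ2] at i4 i5
    rw [hZ1] at i8 i9
    have hκw : x ^ κ ≤ x ^ (w / 32) := hpow _ _ (by linarith)
    refine ⟨⟨e1, e6, e3, hq2⟩, ⟨i3, i4, i5, i6⟩, ⟨i7, ?_, i8⟩, ⟨m q, i1, hm2 q hq1, ?_⟩, ?_, i10, i11⟩
    · have hxk : 0 < x ^ κ := Real.rpow_pos_of_pos hx0 _
      refine lt_of_mul_lt_mul_right ?_ hxk.le
      calc x ^ l * x ^ κ = x ^ (l + κ) := (Real.rpow_add hx0 _ _).symm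
        _ < (ρ q : ℝ) * x ^ κ := i9
    · intro p hp hpq
      exact (hm3 q hq1 p hp (hpq.trans (Nat.div_dvd_div i1 (i7.trans i3)))).trans hκw
    · intro p hp hpq
      exact (hm3 q hq1 p hp (hpq.trans (Nat.div_dvd_div_left i3 (i1.trans i7)))).trans hκw)
  have hsum : ∑ q ∈ F.filter (fun q : ℕ => x ^ (1 / 2 - ε / 2) < (q : ℝ)), ‖∑ m ∈ Ioc M (2 * M), ∑ n ∈ Ioc N (2 * N),
      f m * g n * Dl (a q) (t q * (r q / t q)) (q / (t q * (r q / t q))) (m * n)‖ =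
      ∑ q ∈ F2, ‖∑ m ∈ Ioc M (2 * M), ∑ n ∈ Ioc N (2 * N), f m * g n * Dl (a q) (r q) (q / r q) (m * n)‖ := by
    rw [← hF2]
    refine sum_congr rfl fun q hq => ?_
    obtain ⟨hq1, hq2⟩ := hF2m q hq
    rw [Nat.mul_div_cancel' (hr q hq1 hq2).2.1]
  have hge2 := hge'
  rw [hsum] at hge2
  have c1 : MX.Bd Cd Ad ηd x T z ≤ MX.Bd Cd (max Ad Ag) (min ηd (ε / 2)) x T z :=
    Bd_mono hCd le_rfl (le_max_left _ _) (min_le_left _ _) hT1 hx0.le hz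
  have c2 : MX.Bd Cg Ag (ε / 2) x T z ≤ MX.Bd Cg (max Ad Ag) (min ηd (ε / 2)) x T z :=
    Bd_mono hCg le_rfl (le_max_right _ _) (min_le_right _ _) hT1 hx0.le hz
  calc _ ≤ MX.Bd Cd (max Ad Ag) (min ηd (ε / 2)) x T z + MX.Bd Cg (max Ad Ag) (min ηd (ε / 2)) x T z :=
        hge2.trans (add_le_add (hds'.trans c1) c2)
    _ = MX.Bd (Cd + Cg) (max Ad Ag) (min ηd (ε / 2)) x T z := by
        unfold MX.Bd
        ring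

end Pool.Agent.Lib.NMB
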