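import Pool.Agent.Lib.NMB.Def
import Pool.Agent.Lib.SLN.DefM

/-!
MP_00e23e_nt, project NLM, chapter B, module BinM (helper28): from the second Cauchy inequality (SecN) and the pair bounds (with an
arbitrary divisor m of ρ) to the bound of the sums TG. The coefficients are split by the largest prime of r/ρ r.
-/

set_option autoImplicit false

namespace Pool.Agent.Lib.NMB

open Finset Pool.Agent.Lib.EH3 Pool.Agent.Lib.TB Pool.Agent.Results.MP_00e23e_nt Pool.Agent.Lib.MI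
open Pool.Agent.Lib.MX (Bd Mz Bd_nonneg Bd_mono rp_le rn_le log_le_T Tau_x)

/-- the largest prime factor, 0 if there is none -/
private def BinM_P (n : ℕ) : ℕ := n.primeFactors.sup id

private lemma BinM_P_le {n p : ℕ} (hn : n ≠ 0) (hp : p.Prime) (hd : p ∣ n) : p ≤ BinM_P n :=
  Finset.le_sup (f := id) (Nat.mem_primeFactors.2 ⟨hp, hd, hn⟩)

private lemma BinM_P_cases (n : ℕ) : BinM_P n = 0 ∨ ((BinM_P n).Prime ∧ BinM_P n ∣ n) := by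
  unfold BinM_P
  rcases n.primeFactors.eq_empty_or_nonempty with h | h
  · left
    rw [h]
    rfl
  · right
    obtain ⟨p, hp, he⟩ := Finset.exists_mem_eq_sup _ h id
    rw [he]
    have := Nat.mem_primeFactors.1 hp
    exact ⟨this.1, this.2.1⟩

/-- the sums TG are additive in the coefficients -/
private lemma BinM_sum {ι : Type} (a : ℕ → ℕ → ℤ) (g : ℕ) (h : ℤ) (R S N : ℕ) (ω : ℕ → ℕ → ℂ) (s : Finset ι)
    (F : ι → ℕ → ℕ → ℕ → ℂ) :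
    SL.TG a g h R S N (fun r s1 s2 => ∑ i ∈ s, F i r s1 s2) ω = ∑ i ∈ s, SL.TG a g h R S N (F i) ω := by
  unfold SL.TG
  rw [Finset.sum_comm (s := s)]
  refine Finset.sum_congr rfl fun r _ => ?_
  rw [Finset.sum_comm (s := s)]
  refine Finset.sum_congr rfl fun s1 _ => ?_
  rw [Finset.sum_comm (s := s)]
  refine Finset.sum_congr rfl fun s2 _ => ?_
  rw [Finset.sum_mul]

/-- splitting by a function of r -/
private lemma BinM_split (a : ℕ → ℕ → ℤ) (g R S N : ℕ) (ω : ℕ → ℕ → ℂ) (Hs : Finset ℤ) (γ : ℤ → ℕ → ℕ → ℕ → ℂ)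
    (β : ℕ → ℕ) (n : ℕ) (E : ℝ) (hβ : ∀ h r s1 s2, γ h r s1 s2 ≠ 0 → β r < n)
    (hb : ∀ c : ℕ, ‖∑ h ∈ Hs, SL.TG a g h R S N (fun r s1 s2 => if β r = c then γ h r s1 s2 else 0) ω‖ ^ 2 ≤ E) :
    ‖∑ h ∈ Hs, SL.TG a g h R S N (γ h) ω‖ ^ 2 ≤ (n : ℝ) ^ 2 * E := by
  have hE : 0 ≤ E := (sq_nonneg _).trans (hb 0)
  have hγ : ∀ h : ℤ, γ h = fun r s1 s2 => ∑ c ∈ range n, (if β r = c then γ h r s1 s2 else 0) := by
    intro h
    funext r s1 s2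
    by_cases h0 : γ h r s1 s2 = 0
    · rw [h0]
      symm
      apply Finset.sum_eq_zero
      intro i _
      rw [ite_self]
    · rw [Finset.sum_ite_eq, if_pos (Finset.mem_range.2 (hβ h r s1 s2 h0))]
  have e1 : ∑ h ∈ Hs, SL.TG a g h R S N (γ h) ω = ∑ c ∈ range n, ∑ h ∈ Hs,
      SL.TG a g h R S N (fun r s1 s2 => if β r = c then γ h r s1 s2 else 0) ω := by
    rw [Finset.sum_comm]
    refine Finset.sum_congr rfl fun h _ => ?_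
    rw [← BinM_sum a g h R S N ω (range n) (fun c r s1 s2 => if β r = c then γ h r s1 s2 else 0), ← hγ h]
  have e2 : ‖∑ h ∈ Hs, SL.TG a g h R S N (γ h) ω‖ ≤ (n : ℝ) * Real.sqrt E := by
    rw [e1]
    refine (norm_sum_le_of_le _ fun c _ => Real.le_sqrt_of_sq_le (hb c)).trans ?_
    rw [Finset.sum_const, Finset.card_range, nsmul_eq_mul]
  calc ‖∑ h ∈ Hs, SL.TG a g h R S N (γ h) ω‖ ^ 2 ≤ ((n : ℝ) * Real.sqrt E) ^ 2 :=
        pow_le_pow_left₀ (norm_nonneg _) e2 2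
    _ = (n : ℝ) ^ 2 * E := by rw [mul_pow, Real.sq_sqrt hE]

private lemma BinM_SuP {μ l w κ x : ℝ} {a : ℕ → ℕ → ℤ} {ρ : ℕ → ℕ} {R S R0 : ℕ} {P : Finset (ℕ × ℕ)}
    (hPr : PrM μ l w κ x a ρ R S R0 P) (hκ : x ^ κ ≤ x ^ (w / 32)) {r s1 s2 : ℕ} (hp1 : (r, s1) ∈ P) (hp2 : (r, s2) ∈ P) :
    SLN.SuP (x ^ (w / 32)) R S R0 (BinM_P (r / ρ r)) (ρ r) (r / ρ r) s1 s2 := by
  obtain ⟨⟨a1, a2, a3, a4, -, -⟩, ⟨a7, a8, a9⟩, -, a10, a11, a12⟩ := hPr.2 (r, s1) hp1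
  obtain ⟨⟨-, -, b3, b4, -, -⟩, -, -, b10, -, b12⟩ := hPr.2 (r, s2) hp2
  simp only at a1 a2 a3 a4 a7 a8 a9 a10 a11 a12 b3 b4 b10 b12
  have e : ρ r * (r / ρ r) = r := Nat.mul_div_cancel' a7
  have hr0 : r ≠ 0 := by omega
  have hq0 : r / ρ r ≠ 0 := fun h => hr0 (by rw [← e, h, mul_zero])
  refine ⟨⟨a8, a9⟩, ⟨by rw [e]; exact a1, by rw [e]; exact a2⟩, ⟨a3, a4⟩, ⟨b3, b4⟩,
    fun p hp hd => BinM_P_le hq0 hp hd, fun p hp hd => ?_, fun p hp hd => ?_⟩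
  · rcases BinM_P_cases (r / ρ r) with h | ⟨h1, h2⟩
    · rw [h]
      exact hp.pos
    · rcases (Nat.Prime.dvd_mul hp).1 hd with h3 | h3
      · exact a12 _ _ h1 hp h2 h3
      · exact b12 _ _ h1 hp h2 h3
  · rcases (Nat.Prime.dvd_mul hp).1 hd with h3 | h3
    · rcases (Nat.Prime.dvd_mul hp).1 h3 with h4 | h4
      · exact (a11 p hp h4).trans hκ
      · exact a10 p hp h4
    · exact b10 p hp h3

/-- the final numbers of one class -/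
private lemma BinM_num {C1 C2 TA1 TA2 g R S N H R0 ep W0 : ℝ} (hC1 : 0 < C1) (hC2 : 0 < C2) (hT1 : 0 < TA1)
    (hT2 : 0 < TA2) (hg : 1 ≤ g) (hR : 0 < R) (hS : 0 < S) (hN : 0 < N) (hH : 0 < H) (hR0 : 0 < R0)
    (hep : 0 < ep) (hW0 : 0 ≤ W0) :
    C1 * TA1 * (33 * C2 * TA2 * (N ^ 2 * R0 / (g * R ^ 2)) * N ^ 2 * R ^ 2 * S ^ 2 * H ^ 2) *
      (W0 / (ep * g ^ 2) + ep * S ^ 2 / (R0 * g ^ 5)) ≤
    33 * C1 * C2 * (TA1 * TA2) * (S ^ 2 * N ^ 2) ^ 2 * ((H / g) ^ 2 * (R0 * W0 / (ep * S ^ 2) + ep)) := by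
  have hg0 : 0 < g := by linarith
  have e1 : C1 * TA1 * (33 * C2 * TA2 * (N ^ 2 * R0 / (g * R ^ 2)) * N ^ 2 * R ^ 2 * S ^ 2 * H ^ 2) *
      (W0 / (ep * g ^ 2) + ep * S ^ 2 / (R0 * g ^ 5)) =
      33 * C1 * C2 * (TA1 * TA2) * (S ^ 2 * N ^ 2) ^ 2 *
        ((H / g) ^ 2 * (R0 * W0 / (ep * S ^ 2) * (1 / g) + ep * (1 / g ^ 4))) := by
    field_simp
  rw [e1]
  refine mul_le_mul_of_nonneg_left (mul_le_mul_of_nonneg_left (add_le_add ?_ ?_) (by positivity)) (by positivity)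
  · exact mul_le_of_le_one_right (by positivity) ((div_le_one hg0).2 hg)
  · exact mul_le_of_le_one_right hep.le ((div_le_one (by positivity)).2 (one_le_pow₀ hg))

theorem tBinM (h1 : NLS.SecNStmt) (h2 : SLN.PbTStmt) (h3 : SLN.PbMStmt) (h4 : NumMStmt) : BinMStmt := by
  intro μ ν θ l w hw
  obtain ⟨C1, hC1, A1, hS⟩ := h1
  obtain ⟨k, σ, e0, hσ, he0, hnum⟩ := h4 μ ν θ l w hw
  obtain ⟨C2, hC2, A2, hF⟩ := h3 k
  refine ⟨e0, he0, fun δ κ ε hε hPar => ?_⟩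
  obtain ⟨x0, hx0, hN⟩ := hnum δ κ ε C2 hε hPar hC2
  refine ⟨33 * C1 * C2, 100, max x0 (6 ^ (1 / w)), A1 + A2, by positivity, by norm_num, ?_⟩
  intro x T a ρ g M N R S R0 Hm P hxx hTau hBlk hR hRN hg hgx hHm hsize hPr H' Hs γ ω hH1 hH'm hHs hγ hω ht hsupp
  have hx : x0 ≤ x := (le_max_left _ _).trans hxx
  have hx6 : 6 ≤ x ^ w := by
    have e1 : (6 ^ (1 / w) : ℝ) ^ w ≤ x ^ w :=
      Real.rpow_le_rpow (by positivity) ((le_max_right _ _).trans hxx) hw.le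
    rwa [← Real.rpow_mul (by norm_num : (0 : ℝ) ≤ 6), one_div_mul_cancel hw.ne', Real.rpow_one] at e1
  have hHr : (H' : ℝ) ≤ (Hm : ℝ) := by exact_mod_cast hH'm
  have hsize' : (2 * (R : ℝ) * (S : ℝ) ^ 2 * N * H') ^ 12 ≤ x ^ (30 : ℝ) :=
    (pow_le_pow_left₀ (by positivity) (mul_le_mul_of_nonneg_left hHr (by positivity)) 12).trans hsize
  obtain ⟨⟨hR2, hS1, hN1, hR01, hR0R, hRN', ht01, h2Rg, h8, h8X⟩, ⟨hW0, hZ1, hy1, hκw, hΔ, hZΔ⟩, hc1, hc2, hc3, hc4, ht0Q,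
    hfin⟩ := hN x g H' M N R S R0 hx hBlk hR hg hgx hH1 (hHr.trans hHm) hPr.1.1 hPr.1.2 hsize'
  have hT : 1 ≤ T := hTau.1
  have hT0 : 0 < T := by linarith
  have hgr : (1 : ℝ) ≤ (g : ℝ) := by exact_mod_cast hg
  have hRr : (0 : ℝ) < (R : ℝ) := by exact_mod_cast (by omega : 0 < R)
  have hSr : (0 : ℝ) < (S : ℝ) := by exact_mod_cast (by omega : 0 < S)
  have hNr : (0 : ℝ) < (N : ℝ) := by exact_mod_cast (by omega : 0 < N)
  have hHr0 : (0 : ℝ) < (H' : ℝ) := by exact_mod_cast (by omega : 0 < H')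
  have hR0r : (0 : ℝ) < (R0 : ℝ) := by exact_mod_cast (by omega : 0 < R0)
  have ht0r : (1 : ℝ) ≤ ((⌊x ^ (w / 4)⌋₊ : ℕ) : ℝ) := by exact_mod_cast ht01
  have hx1 : 1 ≤ x := hx0.trans hx
  have hx00 : 0 < x := by linarith
  have hW : 0 < x ^ (w / 4) := Real.rpow_pos_of_pos hx00 _
  have hQ0 : 0 < NLB.Qn g R N R0 := by
    unfold NLB.Qn
    positivity
  have hep : 0 < epM w σ x g R N R0 := by
    unfold epM
    positivity
  have hκ : 0 ≤ x ^ κ := (Real.rpow_pos_of_pos hx00 _).le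
  have hD : 0 ≤ 33 * C2 * T ^ A2 * NLB.Qn g R N R0 := by positivity
  -- one class
  have hone : ∀ c : ℕ, ‖∑ h ∈ Hs, SL.TG a g h R S N
      (fun r s1 s2 => if BinM_P (r / ρ r) = c then γ h r s1 s2 else 0) ω‖ ^ 2 ≤
      C1 * T ^ A1 * (33 * C2 * T ^ A2 * NLB.Qn g R N R0 * (N : ℝ) ^ 2 * (R : ℝ) ^ 2 * (S : ℝ) ^ 2 * (H' : ℝ) ^ 2) *
        (Real.sqrt (x ^ w) / (epM w σ x g R N R0 * (g : ℝ) ^ 2) +
          epM w σ x g R N R0 * (S : ℝ) ^ 2 / (R0 * (g : ℝ) ^ 5)) := by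
    intro c
    have hne : ∀ h r s1 s2, (if BinM_P (r / ρ r) = c then γ h r s1 s2 else 0) ≠ 0 →
        BinM_P (r / ρ r) = c ∧ (r, s1) ∈ P ∧ (r, s2) ∈ P := by
      intro h r s1 s2 hh
      by_cases hc : BinM_P (r / ρ r) = c
      · rw [if_pos hc] at hh
        exact ⟨hc, hsupp h r s1 s2 hh⟩
      · rw [if_neg hc] at hh
        exact absurd rfl hh
    refine hS (x ^ (30 : ℝ)) T (33 * C2 * T ^ A2 * NLB.Qn g R N R0) (epM w σ x g R N R0) (x ^ w) a ρ g R S N H' R0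
      ⌊x ^ (w / 4)⌋₊ Hs (fun h r s1 s2 => if BinM_P (r / ρ r) = c then γ h r s1 s2 else 0) ω hTau hD hep hW0 hg
      hR hS1 hN1 hH1 hR01 h2Rg h8X hHs ?_ hω ht ?_ ?_
    · intro h r s1 s2
      by_cases hc : BinM_P (r / ρ r) = c
      · rw [if_pos hc]
        exact hγ h r s1 s2
      · rw [if_neg hc, norm_zero]
        exact zero_le_one
    · intro h r s1 s2 _ _ _ _ hh
      obtain ⟨-, hp1, hp2⟩ := hne h r s1 s2 hh
      obtain ⟨⟨a1, a2, a3, a4, -, -⟩, ⟨a7, a8, a9⟩, -⟩ := hPr.2 (r, s1) hp1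
      obtain ⟨⟨-, -, b3, b4, -, -⟩, -⟩ := hPr.2 (r, s2) hp2
      exact ⟨⟨a1, a2⟩, ⟨a3, a4⟩, ⟨b3, b4⟩, a7, a8, a9⟩
    · intro h h' r s1 s2 r' s1' s2' hh hh' hne1 hne2 hg1 hg2 hs hs' hρ
      obtain ⟨hc1', hp1, hp2⟩ := hne h r s1 s2 hne1
      obtain ⟨hc2', hp1', hp2'⟩ := hne h' r' s1' s2' hne2
      have s1P := BinM_SuP hPr hκw hp1 hp2
      have s2P := BinM_SuP hPr hκw hp1' hp2'
      rw [hc1'] at s1P
      rw [hc2', ← hρ] at s2P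
      have er : ρ r * (r / ρ r) = r := Nat.mul_div_cancel' hs.2.2.2.1
      have er' : ρ r * (r' / ρ r) = r' := by
        rw [hρ]
        exact Nat.mul_div_cancel' hs'.2.2.2.1
      have hPT := h2 a (x ^ (w / 32)) g R S N R0 ⌊x ^ (w / 4)⌋₊ c (ρ r) (r / ρ r) (r' / ρ r) s1 s2 s1' s2'
        h h' hR01 hR hN1 s1P s2P h8
      rw [er, er'] at hPT
      rw [← hρ]
      refine ⟨hPT.trans ?_, fun hWn => ?_⟩
      · refine mul_le_mul_of_nonneg_right ?_ (Nat.cast_nonneg _)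
        have e1 : 1 ≤ C2 * T ^ A2 := by
          have := mul_le_mul hC2 (one_le_pow₀ hT : 1 ≤ T ^ A2) zero_le_one (by linarith)
          linarith
        calc 32 * ((N : ℝ) ^ 2 * R0 / (g * (R : ℝ) ^ 2)) + ((⌊x ^ (w / 4)⌋₊ : ℕ) : ℝ)
            ≤ 32 * NLB.Qn g R N R0 + NLB.Qn g R N R0 := add_le_add (le_of_eq rfl) ht0Q
          _ = 33 * 1 * NLB.Qn g R N R0 := by ring
          _ ≤ 33 * (C2 * T ^ A2) * NLB.Qn g R N R0 := by gcongr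
          _ = 33 * C2 * T ^ A2 * NLB.Qn g R N R0 := by ring
      · obtain ⟨m, hmρ, hmx, hmp⟩ := (hPr.2 (r, s1) hp1).2.2.1
        have h3m : 3 * m ≤ R := by
          have hμl : x ^ μ * x ^ w ≤ x ^ l := by
            rw [← Real.rpow_add hx00]
            exact Real.rpow_le_rpow_of_exponent_le hx1 hPar.1.2.2.1
          have e1 : (m : ℝ) * 6 ≤ 2 * (R : ℝ) := by
            have e2 : (R0 : ℝ) ≤ (R : ℝ) := by exact_mod_cast hR0R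
            have e3 : (m : ℝ) * 6 ≤ x ^ μ * x ^ w := mul_le_mul hmx hx6 (by norm_num) (Real.rpow_nonneg hx00.le _)
            linarith [hPr.1.1]
          have e4 : ((3 * m : ℕ) : ℝ) ≤ (R : ℝ) := by
            push_cast
            linarith
          exact_mod_cast e4
        have hc1m : 4 * (x ^ (w / 4)) ^ 2 * (R : ℝ) ^ 2 * g * m ≤ R0 * (N : ℝ) ^ 2 :=
          (mul_le_mul_of_nonneg_left hmx (by positivity)).trans hc1
        have hPF := hF (x ^ (30 : ℝ)) T (x ^ (w / 4)) (x ^ w) (x ^ (w / 16))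
          (x ^ (w / 32)) (x ^ (-σ)) a g R S N H' R0 ⌊x ^ (w / 4)⌋₊ m c (ρ r) (r / ρ r) (r' / ρ r) s1 s2
          s1' s2' h h' hTau ⟨hg, hR2, hS1, hN1, hH1, hR01, hR0R, hRN'⟩ ht01 hmρ h3m hsize' hZ1 hy1 hΔ hZΔ s1P s2P hmp
          (hHs h hh) (hHs h' hh') hWn.le hc1m hc2 hc3 hc4
        rw [er, er'] at hPF
        refine hPF.trans (mul_le_mul_of_nonneg_right ?_ (Nat.cast_nonneg _))
        have e2 : NLB.Qn g R N R0 * epM w σ x g R N R0 = NLB.Qn g R N R0 * (x ^ (-σ) + 1 / ((⌊x ^ (w / 4)⌋₊ : ℕ) : ℝ) +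
            1 / x ^ (w / 4)) + ((⌊x ^ (w / 4)⌋₊ : ℕ) : ℝ) := by
          unfold epM
          rw [mul_add, mul_div_cancel₀ _ hQ0.ne']
        have e3 : (N : ℝ) ^ 2 * R0 / (g * (R : ℝ) ^ 2) = NLB.Qn g R N R0 := rfl
        rw [e3, ← e2]
        have e4 : 0 ≤ C2 * T ^ A2 * (NLB.Qn g R N R0 * epM w σ x g R N R0) := by positivity
        have e5 : 33 * C2 * T ^ A2 * NLB.Qn g R N R0 * epM w σ x g R N R0 =
            33 * (C2 * T ^ A2 * (NLB.Qn g R N R0 * epM w σ x g R N R0)) := by ring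
        rw [e5]
        linarith
  -- all classes
  have hall := BinM_split a g R S N ω Hs γ (fun r => BinM_P (r / ρ r)) (⌊x ^ κ⌋₊ + 1) _ (by
    intro h r s1 s2 hh
    obtain ⟨hp1, -⟩ := hsupp h r s1 s2 hh
    rcases BinM_P_cases (r / ρ r) with hz | ⟨hz1, hz2⟩
    · rw [hz]
      exact Nat.succ_pos _
    · exact Nat.lt_succ_of_le (Nat.le_floor ((hPr.2 (r, s1) hp1).2.2.2.2.1 _ hz1 hz2))) hone
  refine hall.trans ?_
  have hnum1 := BinM_num (C1 := C1) (C2 := C2) (TA1 := T ^ A1) (TA2 := T ^ A2) (g := (g : ℝ)) (R := (R : ℝ)) (S := (S : ℝ))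
    (N := (N : ℝ)) (H := (H' : ℝ)) (R0 := (R0 : ℝ)) (ep := epM w σ x g R N R0) (W0 := Real.sqrt (x ^ w))
    hC1 (by linarith) (by positivity) (by positivity) hgr hRr hSr hNr hHr0 hR0r hep (Real.sqrt_nonneg _)
  have e3 : (N : ℝ) ^ 2 * R0 / (g * (R : ℝ) ^ 2) = NLB.Qn g R N R0 := rfl
  rw [e3] at hnum1
  calc (((⌊x ^ κ⌋₊ + 1 : ℕ) : ℕ) : ℝ) ^ 2 * _ ≤ (((⌊x ^ κ⌋₊ + 1 : ℕ) : ℕ) : ℝ) ^ 2 * _ :=
        mul_le_mul_of_nonneg_left hnum1 (by positivity)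
    _ = 33 * C1 * C2 * (T ^ A1 * T ^ A2) * ((S : ℝ) ^ 2 * (N : ℝ) ^ 2) ^ 2 * (((H' : ℝ) / g) ^ 2 *
        ((((⌊x ^ κ⌋₊ + 1 : ℕ) : ℕ) : ℝ) ^ 2 * ((R0 : ℝ) * Real.sqrt (x ^ w) /
          (epM w σ x g R N R0 * (S : ℝ) ^ 2) + epM w σ x g R N R0))) := by ring
    _ ≤ 33 * C1 * C2 * (T ^ A1 * T ^ A2) * ((S : ℝ) ^ 2 * (N : ℝ) ^ 2) ^ 2 * (((H' : ℝ) / g) ^ 2 *
        (100 * x ^ (-(30 * ε)))) :=
        mul_le_mul_of_nonneg_left (mul_le_mul_of_nonneg_left hfin (by positivity)) (by positivity)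
    _ = _ := by rw [pow_add]

end Pool.Agent.Lib.NMB
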