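import Pool.Agent.Lib.NMB.Def

/-!
MP_00e23e_nt, project NLM, T-chapter, module NumM: the numbers of the module BinM (helper3).
-/

set_option autoImplicit false

namespace Pool.Agent.Lib.NMB

open Finset Pool.Agent.Lib.EH3 Pool.Agent.Lib.TB Pool.Agent.Results.MP_00e23e_nt Pool.Agent.Lib.MI
open Pool.Agent.Lib.MX (Bd Mz Bd_nonneg Bd_mono rp_le rn_le log_le_T Tau_x)

private lemma NumM_big (a L : ℝ) (ha : 0 < a) (hL : 1 ≤ L) :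
    ∃ x0 : ℝ, 1 ≤ x0 ∧ ∀ x : ℝ, x0 ≤ x → L ≤ x ^ a := by
  have hL0 : 0 ≤ L := by linarith
  refine ⟨L ^ (1 / a), Real.one_le_rpow hL (by positivity), ?_⟩
  intro x hx
  have h1 : (L ^ (1 / a)) ^ a ≤ x ^ a := Real.rpow_le_rpow (by positivity) hx ha.le
  rwa [← Real.rpow_mul hL0, one_div_mul_cancel ha.ne', Real.rpow_one] at h1

/-- sizes of R, S, N, R0 -/
private lemma NumM_size (ν θ l w δ κ ε x : ℝ) (g M N R S R0 : ℕ) (_hw : 0 < w) (hl : 0 ≤ l) (hlν : l + w ≤ ν)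
    (hε : 100000 * ε ≤ w) (hε0 : 0 < ε) (hκ : 0 < κ) (hκε : κ ≤ ε)
    (hx : 1 ≤ x) (h64 : 64 ≤ x ^ (w / 64)) (hB : BlkM ν θ δ κ ε x M N R S)
    (hg : (g : ℝ) ≤ x ^ (8 * ε)) (hR0 : x ^ l ≤ 2 * (R0 : ℝ)) (hR0' : (R0 : ℝ) ≤ x ^ (l + κ)) :
    2 ≤ R ∧ 1 ≤ N ∧ 1 ≤ R0 ∧ R0 ≤ R ∧ R ≤ N ∧ (R : ℝ) ^ 2 * g ≤ (N : ℝ) ^ 2 ∧ (R : ℝ) * g ≤ N * x ^ (-(2 * ε)) ∧
      x ^ (1 / 2 - θ) ≤ 4 * S := by
  obtain ⟨⟨hN1, hN2, hMN1, hMN2⟩, hS1, hR1, hR2, hRS1, hRS2⟩ := hB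
  have hx0 : 0 < x := by linarith
  have hNpos : (0 : ℝ) < N := lt_of_lt_of_le (Real.rpow_pos_of_pos hx0 _) hN1
  have hN : 1 ≤ N := by exact_mod_cast hNpos
  have hR0pos : (0 : ℝ) < R0 := by
    have := Real.rpow_pos_of_pos hx0 l
    linarith
  have hR01 : 1 ≤ R0 := by exact_mod_cast hR0pos
  have a1 : x ^ (ν - 12 * ε) ≤ 2 * (R : ℝ) := by
    have b1 : x ^ (ν - ε) * x ^ (-(10 * ε) - κ) ≤ N * x ^ (-(10 * ε) - κ) :=
      mul_le_mul_of_nonneg_right hN1 (Real.rpow_nonneg hx0.le _)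
    rw [← Real.rpow_add hx0] at b1
    have b2 : x ^ (ν - 12 * ε) ≤ x ^ (ν - ε + (-(10 * ε) - κ)) :=
      Real.rpow_le_rpow_of_exponent_le hx (by linarith)
    linarith
  have a2 : x ^ (w / 64) * x ^ (l + κ) ≤ x ^ (ν - 12 * ε) := by
    rw [← Real.rpow_add hx0]
    exact Real.rpow_le_rpow_of_exponent_le hx (by linarith)
  have a3 : 1 ≤ x ^ (l + κ) := Real.one_le_rpow hx (by linarith)
  have a4 : 64 * x ^ (l + κ) ≤ 2 * (R : ℝ) := by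
    have : 64 * x ^ (l + κ) ≤ x ^ (w / 64) * x ^ (l + κ) :=
      mul_le_mul_of_nonneg_right h64 (by linarith)
    linarith
  have hR2' : 2 ≤ R := by
    have : (2 : ℝ) ≤ R := by linarith
    exact_mod_cast this
  have hR0R : R0 ≤ R := by
    have : (R0 : ℝ) ≤ R := by linarith
    exact_mod_cast this
  have a5 : x ^ (-(10 * ε)) ≤ 1 := Real.rpow_le_one_of_one_le_of_nonpos hx (by linarith)
  have hRN : (R : ℝ) ≤ N := hR1.trans (mul_le_of_le_one_right hNpos.le a5)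
  have hRN' : R ≤ N := by exact_mod_cast hRN
  have hg0 : (0 : ℝ) ≤ g := Nat.cast_nonneg _
  have a6 : (R : ℝ) * g ≤ N * x ^ (-(2 * ε)) := by
    calc (R : ℝ) * g ≤ (N * x ^ (-(10 * ε))) * x ^ (8 * ε) :=
          mul_le_mul hR1 hg hg0 (mul_nonneg hNpos.le (Real.rpow_nonneg hx0.le _))
      _ = N * (x ^ (-(10 * ε)) * x ^ (8 * ε)) := by ring
      _ = N * x ^ (-(2 * ε)) := by
          rw [← Real.rpow_add hx0]
          congr 2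
          ring
  have a7 : x ^ (-(2 * ε)) ≤ 1 := Real.rpow_le_one_of_one_le_of_nonpos hx (by linarith)
  have a8 : (R : ℝ) ^ 2 * g ≤ (N : ℝ) ^ 2 := by
    have : (R : ℝ) * g ≤ N := a6.trans (mul_le_of_le_one_right hNpos.le a7)
    calc (R : ℝ) ^ 2 * g = R * (R * g) := by ring
      _ ≤ N * N := mul_le_mul hRN this (by positivity) hNpos.le
      _ = (N : ℝ) ^ 2 := by ring
  refine ⟨hR2', hN, hR01, hR0R, hRN', a8, a6, ?_⟩
  have a9 : (R : ℝ) ≤ x ^ (θ - 9 * ε) := by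
    calc (R : ℝ) ≤ N * x ^ (-(10 * ε)) := hR1
      _ ≤ x ^ (θ + ε) * x ^ (-(10 * ε)) := mul_le_mul_of_nonneg_right hN2 (Real.rpow_nonneg hx0.le _)
      _ = x ^ (θ - 9 * ε) := by
          rw [← Real.rpow_add hx0]
          congr 1
          ring
  have hS0 : (0 : ℝ) ≤ S := Nat.cast_nonneg _
  have a10 : x ^ (1 / 2 - θ) * x ^ (θ - 9 * ε) ≤ (4 * S) * x ^ (θ - 9 * ε) := by
    calc x ^ (1 / 2 - θ) * x ^ (θ - 9 * ε) = x ^ ((1 : ℝ) / 2 - 9 * ε) := by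
          rw [← Real.rpow_add hx0]
          congr 1
          ring
      _ ≤ x ^ (1 / 2 - ε / 2) := Real.rpow_le_rpow_of_exponent_le hx (by linarith)
      _ ≤ 4 * ((R : ℝ) * S) := hRS2
      _ = (4 * S) * R := by ring
      _ ≤ (4 * S) * x ^ (θ - 9 * ε) := mul_le_mul_of_nonneg_left a9 (by positivity)
  exact le_of_mul_le_mul_right a10 (Real.rpow_pos_of_pos hx0 _)

private lemma NumM_30 (t X : ℝ) (ht : 2 ≤ t) (h : t ^ 12 ≤ X) : 4 * t ≤ X := by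
  have h1 : (2 : ℝ) ^ 11 ≤ t ^ 11 := pow_le_pow_left₀ (by norm_num) ht 11
  have h2 : t ^ 12 = t ^ 11 * t := by ring
  have h3 : (4 : ℝ) * t ≤ t ^ 11 * t := mul_le_mul_of_nonneg_right (by linarith) (by linarith)
  linarith

/-- the saving -/
private lemma NumM_ep (l w σ x : ℝ) (g R N R0 : ℕ) (_hw : 0 < w) (hlw : w ≤ l) (hσ : 0 < σ) (hσ1 : σ ≤ w / 16) (hx : 1 ≤ x)
    (h64 : 64 ≤ x ^ (w / 64)) (hg : 1 ≤ g) (hR : 1 ≤ R) (hRg : (R : ℝ) ^ 2 * g ≤ (N : ℝ) ^ 2)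
    (hR0 : x ^ l ≤ 2 * (R0 : ℝ)) :
    x ^ (-σ) ≤ epM w σ x g R N R0 ∧ epM w σ x g R N R0 ≤ 6 * x ^ (-σ) ∧
      (⌊x ^ (w / 4)⌋₊ : ℝ) ≤ NLB.Qn g R N R0 := by
  have hx0 : 0 < x := by linarith
  have hgR : (0 : ℝ) < g * (R : ℝ) ^ 2 := by
    have h1 : (0 : ℝ) < g := by exact_mod_cast hg
    have h2 : (0 : ℝ) < R := by exact_mod_cast hR
    positivity
  have hR0p : (0 : ℝ) < R0 := by
    have := Real.rpow_pos_of_pos hx0 l
    linarith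
  have q1 : (R0 : ℝ) ≤ NLB.Qn g R N R0 := by
    unfold NLB.Qn
    rw [le_div_iff₀ hgR]
    calc (R0 : ℝ) * (g * (R : ℝ) ^ 2) = ((R : ℝ) ^ 2 * g) * R0 := by ring
      _ ≤ (N : ℝ) ^ 2 * R0 := mul_le_mul_of_nonneg_right hRg hR0p.le
  have q0 : 0 < NLB.Qn g R N R0 := lt_of_lt_of_le hR0p q1
  set t : ℝ := x ^ (w / 4) with ht
  have t1 : 64 ≤ t := by
    have : x ^ (w / 64) ≤ t := Real.rpow_le_rpow_of_exponent_le hx (by linarith)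
    linarith
  have t0 : 0 < t := by linarith
  have hf1 : (⌊t⌋₊ : ℝ) ≤ t := Nat.floor_le t0.le
  have hf2 : t / 2 ≤ (⌊t⌋₊ : ℝ) := by
    have := Nat.lt_floor_add_one t
    linarith
  have hf0 : (0 : ℝ) < (⌊t⌋₊ : ℝ) := by linarith
  -- exponents
  have e1 : 1 / t ≤ x ^ (-σ) := by
    have : 1 / t = x ^ (-(w / 4)) := by rw [Real.rpow_neg hx0.le, one_div]
    rw [this]
    exact Real.rpow_le_rpow_of_exponent_le hx (by linarith)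
  have e2 : 1 / (⌊t⌋₊ : ℝ) ≤ 2 * x ^ (-σ) := by
    have : 1 / (⌊t⌋₊ : ℝ) ≤ 1 / (t / 2) := one_div_le_one_div_of_le (by linarith) hf2
    have h2 : 1 / (t / 2) = 2 * (1 / t) := by field_simp
    linarith
  have e4 : (⌊t⌋₊ : ℝ) / NLB.Qn g R N R0 ≤ 2 * x ^ (-σ) := by
    rw [div_le_iff₀ q0]
    have h2 : t ≤ x ^ l * x ^ (-σ) := by
      rw [← Real.rpow_add hx0]
      exact Real.rpow_le_rpow_of_exponent_le hx (by linarith)
    have hnn : 0 ≤ x ^ (-σ) := Real.rpow_nonneg hx0.le _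
    calc (⌊t⌋₊ : ℝ) ≤ t := hf1
      _ ≤ x ^ l * x ^ (-σ) := h2
      _ ≤ (2 * (R0 : ℝ)) * x ^ (-σ) := mul_le_mul_of_nonneg_right hR0 hnn
      _ ≤ (2 * NLB.Qn g R N R0) * x ^ (-σ) := mul_le_mul_of_nonneg_right (by linarith) hnn
      _ = 2 * x ^ (-σ) * NLB.Qn g R N R0 := by ring
  have n1 : 0 ≤ 1 / (⌊t⌋₊ : ℝ) := by positivity
  have n2 : 0 ≤ 1 / t := by positivity
  have n3 : 0 ≤ (⌊t⌋₊ : ℝ) / NLB.Qn g R N R0 := by positivity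
  unfold epM
  refine ⟨by linarith, by linarith, ?_⟩
  have h2 : 2 * t ≤ x ^ l := by
    have h3 : x ^ (w / 64) * t ≤ x ^ l := by
      rw [ht, ← Real.rpow_add hx0]
      exact Real.rpow_le_rpow_of_exponent_le hx (by linarith)
    have h4 : 64 * t ≤ x ^ (w / 64) * t := mul_le_mul_of_nonneg_right h64 t0.le
    linarith
  linarith

/-- the last inequality -/
private lemma NumM_fin (θ l w κ ε σ x E : ℝ) (S R0 : ℕ) (_hw : 0 < w) (hθ : 2 * θ + l + w ≤ 1) (hκ : 0 < κ) (hκε : κ ≤ ε)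
    (hεw : 100000 * ε ≤ w) (hσ1 : σ ≤ w / 16)
    (hε : 1000 * ε ≤ σ) (hx : 1 ≤ x) (hE1 : x ^ (-σ) ≤ E) (hE2 : E ≤ 6 * x ^ (-σ)) (hS : x ^ (1 / 2 - θ) ≤ 4 * S)
    (hR0' : (R0 : ℝ) ≤ x ^ (l + κ)) :
    ((⌊x ^ κ⌋₊ + 1 : ℕ) : ℝ) ^ 2 * ((R0 : ℝ) * Real.sqrt (x ^ w) / (E * (S : ℝ) ^ 2) + E) ≤
      100 * x ^ (-(30 * ε)) := by
  have hx0 : 0 < x := by linarith
  have hσp : 0 < x ^ (-σ) := Real.rpow_pos_of_pos hx0 _
  have hEp : 0 < E := lt_of_lt_of_le hσp hE1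
  have h10 : 0 < x ^ (1 / 2 - θ) := Real.rpow_pos_of_pos hx0 _
  have hS0 : (0 : ℝ) < S := by linarith
  have s1 : x ^ (1 - 2 * θ) ≤ 16 * (S : ℝ) ^ 2 := by
    calc x ^ (1 - 2 * θ) = x ^ (1 / 2 - θ) * x ^ (1 / 2 - θ) := by
          rw [← Real.rpow_add hx0]
          congr 1
          ring
      _ ≤ (4 * S) * (4 * S) := mul_le_mul hS hS h10.le (by positivity)
      _ = 16 * (S : ℝ) ^ 2 := by ring
  have s2 : Real.sqrt (x ^ w) = x ^ (w / 2) := by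
    rw [Real.sqrt_eq_rpow, ← Real.rpow_mul hx0.le]
    congr 1
    ring
  have s3 : (R0 : ℝ) * x ^ (w / 2) / (E * (S : ℝ) ^ 2) ≤ 16 * x ^ (-σ) := by
    rw [div_le_iff₀ (by positivity)]
    calc (R0 : ℝ) * x ^ (w / 2) ≤ x ^ (l + κ) * x ^ (w / 2) :=
          mul_le_mul_of_nonneg_right hR0' (Real.rpow_nonneg hx0.le _)
      _ = x ^ (l + κ + w / 2) := by rw [← Real.rpow_add hx0]
      _ ≤ x ^ (-σ + -σ + (1 - 2 * θ)) := Real.rpow_le_rpow_of_exponent_le hx (by linarith)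
      _ = x ^ (-σ) * (x ^ (-σ) * x ^ (1 - 2 * θ)) := by
          rw [Real.rpow_add hx0, Real.rpow_add hx0]
          ring
      _ ≤ x ^ (-σ) * (E * (16 * (S : ℝ) ^ 2)) :=
          mul_le_mul_of_nonneg_left (mul_le_mul hE1 s1 (Real.rpow_nonneg hx0.le _) hEp.le) hσp.le
      _ = 16 * x ^ (-σ) * (E * (S : ℝ) ^ 2) := by ring
  have k1 : 1 ≤ x ^ κ := Real.one_le_rpow hx hκ.le
  have k2 : ((⌊x ^ κ⌋₊ + 1 : ℕ) : ℝ) ≤ 2 * x ^ κ := by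
    push_cast
    have := Nat.floor_le (by linarith : (0 : ℝ) ≤ x ^ κ)
    linarith
  have k3 : ((⌊x ^ κ⌋₊ + 1 : ℕ) : ℝ) ^ 2 ≤ 4 * x ^ (2 * κ) := by
    calc ((⌊x ^ κ⌋₊ + 1 : ℕ) : ℝ) ^ 2 ≤ (2 * x ^ κ) ^ 2 := pow_le_pow_left₀ (Nat.cast_nonneg _) k2 2
      _ = 4 * (x ^ κ * x ^ κ) := by ring
      _ = 4 * x ^ (2 * κ) := by
          rw [← Real.rpow_add hx0]
          congr 2
          ring
  rw [s2]
  have k4 : (R0 : ℝ) * x ^ (w / 2) / (E * (S : ℝ) ^ 2) + E ≤ 22 * x ^ (-σ) := by linarith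
  have k5 : 0 ≤ (R0 : ℝ) * x ^ (w / 2) / (E * (S : ℝ) ^ 2) + E := by positivity
  calc ((⌊x ^ κ⌋₊ + 1 : ℕ) : ℝ) ^ 2 * ((R0 : ℝ) * x ^ (w / 2) / (E * (S : ℝ) ^ 2) + E)
      ≤ (4 * x ^ (2 * κ)) * (22 * x ^ (-σ)) := mul_le_mul k3 k4 k5 (by positivity)
    _ = 88 * x ^ (2 * κ + -σ) := by
        rw [Real.rpow_add hx0]
        ring
    _ ≤ 88 * x ^ (-(30 * ε)) :=
        mul_le_mul_of_nonneg_left (Real.rpow_le_rpow_of_exponent_le hx (by linarith)) (by norm_num)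
    _ ≤ 100 * x ^ (-(30 * ε)) := mul_le_mul_of_nonneg_right (by norm_num) (Real.rpow_nonneg hx0.le _)

/-- the conditions of the far pairs -/
private lemma NumM_far (μ l w δ ε x C2 : ℝ) (g H N R S R0 k : ℕ) (hk : 40 / w ≤ k) (hw : 0 < w) (hw1 : w ≤ 1 / 6)
    (hμl : μ + w ≤ l) (hδ : δ ≤ ε)
    (hε : 100000 * ε ≤ w) (hε0 : 0 < ε) (hx : 1 ≤ x) (hC2 : 1 ≤ C2)
    (h64 : 64 ≤ x ^ (w / 64)) (hC : C2 ≤ x ^ (w / 64)) (hR : 1 ≤ R)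
    (hRg : (R : ℝ) ^ 2 * g ≤ (N : ℝ) ^ 2) (hg : (g : ℝ) ≤ x ^ (8 * ε)) (hH : (H : ℝ) ≤ x ^ (31 * ε))
    (hR0 : x ^ l ≤ 2 * (R0 : ℝ)) (hR01 : 1 ≤ R0) (hRS : (R : ℝ) * S ≤ x ^ (1 / 2 + δ)) :
    4 * (x ^ (w / 4)) ^ 2 * (R : ℝ) ^ 2 * g * x ^ μ ≤ R0 * (N : ℝ) ^ 2 ∧
    C2 * ((x ^ (w / 4)) ^ 2 * (x ^ (w / 16)) ^ 2 * (g : ℝ) ^ 2 * (H : ℝ) ^ 4) ≤ x ^ w ∧
    C2 * (x ^ (w / 16) * x ^ (w / 32)) ^ 2 ≤ x ^ (w / 4) ∧
    64 * (R : ℝ) ^ 2 * (S : ℝ) ^ 4 ≤ (R0 : ℝ) * (x ^ (w / 4) / (C2 * (x ^ (w / 16) * x ^ (w / 32)))) ^ k := by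
  have hx0 : 0 < x := by linarith
  have pw : ∀ (a : ℝ) (n : ℕ), (x ^ a) ^ n = x ^ (a * n) := fun a n => (Real.rpow_mul_natCast hx0.le a n).symm
  have c2 : ((2 : ℕ) : ℝ) = 2 := by norm_num
  refine ⟨?_, ?_, ?_, ?_⟩
  · have h1 : 8 * ((x ^ (w / 4)) ^ 2 * x ^ μ) ≤ 2 * (R0 : ℝ) := by
      rw [pw, c2, ← Real.rpow_add hx0]
      calc 8 * x ^ (w / 4 * 2 + μ) ≤ x ^ (w / 64) * x ^ (w / 4 * 2 + μ) :=
            mul_le_mul_of_nonneg_right (by linarith) (Real.rpow_nonneg hx0.le _)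
        _ = x ^ (w / 64 + (w / 4 * 2 + μ)) := by rw [← Real.rpow_add hx0]
        _ ≤ x ^ l := Real.rpow_le_rpow_of_exponent_le hx (by linarith)
        _ ≤ 2 * (R0 : ℝ) := hR0
    calc 4 * (x ^ (w / 4)) ^ 2 * (R : ℝ) ^ 2 * g * x ^ μ =
          (4 * ((x ^ (w / 4)) ^ 2 * x ^ μ)) * ((R : ℝ) ^ 2 * g) := by ring
      _ ≤ R0 * (N : ℝ) ^ 2 := mul_le_mul (by linarith) hRg (by positivity) (by positivity)
  · have g2 : (g : ℝ) ^ 2 ≤ x ^ (16 * ε) := by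
      calc (g : ℝ) ^ 2 ≤ (x ^ (8 * ε)) ^ 2 := pow_le_pow_left₀ (Nat.cast_nonneg _) hg 2
        _ = x ^ (16 * ε) := by
            rw [pw]
            congr 1
            push_cast
            ring
    have H4 : (H : ℝ) ^ 4 ≤ x ^ (124 * ε) := by
      calc (H : ℝ) ^ 4 ≤ (x ^ (31 * ε)) ^ 4 := pow_le_pow_left₀ (Nat.cast_nonneg _) hH 4
        _ = x ^ (124 * ε) := by
            rw [pw]
            congr 1
            push_cast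
            ring
    rw [pw, pw, c2]
    calc C2 * (x ^ (w / 4 * 2) * x ^ (w / 16 * 2) * (g : ℝ) ^ 2 * (H : ℝ) ^ 4)
        ≤ x ^ (w / 64) * (x ^ (w / 4 * 2) * x ^ (w / 16 * 2) * x ^ (16 * ε) * x ^ (124 * ε)) := by
          refine mul_le_mul hC ?_ (by positivity) (Real.rpow_nonneg hx0.le _)
          refine mul_le_mul ?_ H4 (by positivity) (by positivity)
          exact mul_le_mul_of_nonneg_left g2 (by positivity)
      _ = x ^ (w / 64 + (w / 4 * 2 + w / 16 * 2 + 16 * ε + 124 * ε)) := by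
          rw [Real.rpow_add hx0, Real.rpow_add hx0, Real.rpow_add hx0, Real.rpow_add hx0]
      _ ≤ x ^ w := Real.rpow_le_rpow_of_exponent_le hx (by linarith)
  · rw [← Real.rpow_add hx0, pw, c2]
    calc C2 * x ^ ((w / 16 + w / 32) * 2) ≤ x ^ (w / 64) * x ^ ((w / 16 + w / 32) * 2) :=
          mul_le_mul_of_nonneg_right hC (Real.rpow_nonneg hx0.le _)
      _ = x ^ (w / 64 + (w / 16 + w / 32) * 2) := by rw [← Real.rpow_add hx0]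
      _ ≤ x ^ (w / 4) := Real.rpow_le_rpow_of_exponent_le hx (by linarith)
  · have hR1 : (1 : ℝ) ≤ R := by exact_mod_cast hR
    have hS0 : (0 : ℝ) ≤ S := Nat.cast_nonneg _
    have hR0r : (1 : ℝ) ≤ R0 := by exact_mod_cast hR01
    have b1 : (S : ℝ) ≤ x ^ (1 / 2 + δ) := by
      have : (S : ℝ) ≤ R * S := le_mul_of_one_le_left hS0 hR1
      linarith
    have b2 : (R : ℝ) ^ 2 * (S : ℝ) ^ 4 ≤ x ^ (2 + 4 * δ) := by
      calc (R : ℝ) ^ 2 * (S : ℝ) ^ 4 = ((R : ℝ) * S) ^ 2 * (S : ℝ) ^ 2 := by ring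
        _ ≤ (x ^ (1 / 2 + δ)) ^ 2 * (x ^ (1 / 2 + δ)) ^ 2 :=
            mul_le_mul (pow_le_pow_left₀ (by positivity) hRS 2) (pow_le_pow_left₀ hS0 b1 2) (by positivity) (by positivity)
        _ = x ^ (2 + 4 * δ) := by
            rw [pw, ← Real.rpow_add hx0]
            congr 1
            push_cast
            ring
    have b3 : x ^ (w / 8) ≤ x ^ (w / 4) / (C2 * (x ^ (w / 16) * x ^ (w / 32))) := by
      rw [le_div_iff₀ (by positivity)]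
      calc x ^ (w / 8) * (C2 * (x ^ (w / 16) * x ^ (w / 32)))
          ≤ x ^ (w / 8) * (x ^ (w / 64) * (x ^ (w / 16) * x ^ (w / 32))) := by
            refine mul_le_mul_of_nonneg_left ?_ (Real.rpow_nonneg hx0.le _)
            exact mul_le_mul_of_nonneg_right hC (by positivity)
        _ = x ^ (w / 8 + (w / 64 + (w / 16 + w / 32))) := by
            rw [Real.rpow_add hx0, Real.rpow_add hx0, Real.rpow_add hx0]
        _ ≤ x ^ (w / 4) := Real.rpow_le_rpow_of_exponent_le hx (by linarith)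
    have b4 : x ^ (5 : ℝ) ≤ (x ^ (w / 4) / (C2 * (x ^ (w / 16) * x ^ (w / 32)))) ^ k := by
      calc x ^ (5 : ℝ) ≤ x ^ (w / 8 * k) := by
            refine Real.rpow_le_rpow_of_exponent_le hx ?_
            have h5 : 40 / w * w = 40 := div_mul_cancel₀ _ hw.ne'
            have h6 : 40 / w * w ≤ k * w := mul_le_mul_of_nonneg_right hk hw.le
            linarith
        _ = (x ^ (w / 8)) ^ k := (pw _ _).symm
        _ ≤ _ := pow_le_pow_left₀ (Real.rpow_nonneg hx0.le _) b3 k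
    calc 64 * (R : ℝ) ^ 2 * (S : ℝ) ^ 4 = 64 * ((R : ℝ) ^ 2 * (S : ℝ) ^ 4) := by ring
      _ ≤ x ^ (w / 64) * x ^ (2 + 4 * δ) := mul_le_mul h64 b2 (by positivity) (Real.rpow_nonneg hx0.le _)
      _ = x ^ (w / 64 + (2 + 4 * δ)) := by rw [← Real.rpow_add hx0]
      _ ≤ x ^ (5 : ℝ) := Real.rpow_le_rpow_of_exponent_le hx (by linarith)
      _ ≤ _ := b4
      _ ≤ _ := le_mul_of_one_le_left (by positivity) hR0r

private lemma NumM_th (w : ℝ) (k : ℕ) : (w / 16 / 2 ^ (k + 1)) * ((2 ^ (k + 1) : ℕ) : ℝ) = w / 16 := by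
  have h : (0 : ℝ) < 2 ^ (k + 1) := by positivity
  push_cast
  exact div_mul_cancel₀ _ h.ne'

theorem tNumM : NumMStmt := by
  intro μ ν θ l w hw
  obtain ⟨k, hk⟩ : ∃ k : ℕ, 40 / w ≤ k := exists_nat_ge _
  obtain ⟨σ, hσ⟩ : ∃ σ : ℝ, σ = w / 16 / 2 ^ (k + 1) := ⟨_, rfl⟩
  have h2k : (1 : ℝ) ≤ 2 ^ (k + 1) := one_le_pow₀ (by norm_num)
  have hσ0 : 0 < σ := by rw [hσ]; positivity
  have hσ1 : σ ≤ w / 16 := by
    rw [hσ]
    exact div_le_self (by positivity) h2k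
  have hσk : σ * ((2 ^ (k + 1) : ℕ) : ℝ) = w / 16 := by rw [hσ]; exact NumM_th w k
  refine ⟨k, σ, σ / 1000, hσ0, by positivity, ?_⟩
  intro δ κ ε C2 hεe hPar hC2
  obtain ⟨⟨hμ0, _, hμl, hlν⟩, ⟨hνθ, hθ3, hθl⟩, ⟨hδ0, hδ⟩, ⟨hκ0, hκ⟩, hε5⟩ := hPar
  have hε0 : 0 < ε := by linarith
  have hεσ : 1000 * ε ≤ σ := by linarith
  have hlw : w ≤ l := by linarith
  have hl0 : 0 ≤ l := by linarith
  have hw6 : w ≤ 1 / 6 := by linarith
  obtain ⟨x1, hx1, hb1⟩ := NumM_big (w / 64) (max C2 64) (by positivity) (le_trans hC2 (le_max_left _ _))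
  obtain ⟨x2, hx2, hb2⟩ := NumM_big (2 * ε) 2 (by linarith) (by norm_num)
  refine ⟨max x1 x2, le_trans hx1 (le_max_left _ _), ?_⟩
  intro x g H M N R S R0 hx hB hR hg hg8 hH hH31 hR0 hR0' h12
  have hx1' : x1 ≤ x := le_trans (le_max_left _ _) hx
  have hx2' : x2 ≤ x := le_trans (le_max_right _ _) hx
  have hxx : 1 ≤ x := hx1.trans hx1'
  have hx0 : 0 < x := by linarith
  have hbb := hb1 x hx1'
  have h64 : 64 ≤ x ^ (w / 64) := (le_max_right _ _).trans hbb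
  have hC : C2 ≤ x ^ (w / 64) := (le_max_left _ _).trans hbb
  have h22 := hb2 x hx2'
  obtain ⟨r2, rN, rR0, rR0R, rRN, rRg, rRg2, rS⟩ :=
    NumM_size ν θ l w δ κ ε x g M N R S R0 hw hl0 hlν hε5 hε0 hκ0 hκ hxx h64 hB hg8 hR0 hR0'
  obtain ⟨⟨hN1, hN2, hMN1, hMN2⟩, hS1, hR1, hR2, hRS1, hRS2⟩ := hB
  have hNpos : (0 : ℝ) < N := by exact_mod_cast rN
  obtain ⟨p1, p2, p3⟩ := NumM_ep l w σ x g R N R0 hw hlw hσ0 hσ1 hxx h64 hg hR rRg hR0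
  obtain ⟨f1, f2, f3, f4⟩ := NumM_far μ l w δ ε x C2 g H N R S R0 k hk hw hw6 hμl hδ hε5 hε0 hxx hC2 h64 hC hR rRg
    hg8 hH31 hR0 rR0 hRS1
  have hfin := NumM_fin θ l w κ ε σ x (epM w σ x g R N R0) S R0 hw hθl hκ0 hκ hε5 hσ1 hεσ hxx p1 p2 rS hR0'
  refine ⟨⟨r2, hS1, rN, rR0, rR0R, rRN, ?_, ?_, ?_, ?_⟩, ⟨?_, ?_, ?_, ?_, ?_, ?_⟩, f1, f2, f3, f4, p3, hfin⟩
  · exact Nat.le_floor (by
      rw [Nat.cast_one]
      exact Real.one_le_rpow hxx (by positivity))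
  · have h1 : (2 : ℝ) * (R * g) ≤ N := by
      have h2 : x ^ (-(2 * ε)) * 2 ≤ 1 := by
        rw [Real.rpow_neg hx0.le]
        have h3 : 0 < x ^ (2 * ε) := Real.rpow_pos_of_pos hx0 _
        rw [inv_mul_le_iff₀ h3]
        linarith
      calc (2 : ℝ) * (R * g) ≤ 2 * (N * x ^ (-(2 * ε))) := mul_le_mul_of_nonneg_left rRg2 (by norm_num)
        _ = N * (x ^ (-(2 * ε)) * 2) := by ring
        _ ≤ N := mul_le_of_le_one_right hNpos.le h2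
    have h3 : ((2 * R * g : ℕ) : ℝ) ≤ (N : ℝ) := by
      push_cast
      linarith
    exact_mod_cast h3
  · have h1 : (8 : ℝ) ≤ R0 := by
      have h2 : x ^ (w / 64) ≤ x ^ l := Real.rpow_le_rpow_of_exponent_le hxx (by linarith)
      linarith
    have h3 : ((8 * R ^ 2 * g : ℕ) : ℝ) ≤ ((R0 * N ^ 2 : ℕ) : ℝ) := by
      push_cast
      calc (8 : ℝ) * (R : ℝ) ^ 2 * g = 8 * ((R : ℝ) ^ 2 * g) := by ring
        _ ≤ R0 * (N : ℝ) ^ 2 := mul_le_mul h1 rRg (by positivity) (by positivity)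
    exact_mod_cast h3
  · have hRr : (1 : ℝ) ≤ R := by exact_mod_cast hR
    have hSr : (1 : ℝ) ≤ S := by exact_mod_cast hS1
    have hNr : (1 : ℝ) ≤ N := by exact_mod_cast rN
    have hHr : (1 : ℝ) ≤ H := by exact_mod_cast hH
    have hA : 1 ≤ (R : ℝ) * (S : ℝ) ^ 2 := one_le_mul_of_one_le_of_one_le hRr (one_le_pow₀ hSr)
    have hNH : 1 ≤ (N : ℝ) * H := one_le_mul_of_one_le_of_one_le hNr hHr
    have hle : (R : ℝ) * (S : ℝ) ^ 2 ≤ (R : ℝ) * (S : ℝ) ^ 2 * (N * H) := le_mul_of_one_le_right (by linarith) hNH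
    have e1 : 2 * (R : ℝ) * (S : ℝ) ^ 2 * N * H = 2 * ((R : ℝ) * (S : ℝ) ^ 2 * (N * H)) := by ring
    have := NumM_30 (2 * (R : ℝ) * (S : ℝ) ^ 2 * N * H) (x ^ (30 : ℝ)) (by rw [e1]; linarith) h12
    rw [e1] at this
    linarith
  · exact Real.one_le_rpow hxx hw.le
  · exact Real.one_le_rpow hxx (by positivity)
  · exact Real.one_le_rpow hxx (by positivity)
  · exact Real.rpow_le_rpow_of_exponent_le hxx (by linarith)
  · exact Real.rpow_pos_of_pos hx0 _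
  · have h1 : (x ^ (-σ)) ^ (2 ^ (k + 1)) = x ^ (-(w / 16)) := by
      rw [← Real.rpow_mul_natCast hx0.le]
      congr 1
      rw [neg_mul, hσk]
    rw [h1, ← Real.rpow_add hx0]
    simp

end Pool.Agent.Lib.NMB
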