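import Pool.Agent.Lib.NLB.Spec
import Pool.Agent.Lib.NLB.DefNum
import Pool.Agent.Lib.NLS.DefS

/-!
MP_00e23e_nt, project NLM (all classes; squarefree moduli with an arbitrary divisor m ≤ x^μ, μ < 1/5, the cofactor x^κ-smooth; idea:
helper83, helper5), parameters of the chapters B and T (helper28). HgN of NLB/Spec is used as it is.

Choice for μ < 1/5: w = (1/5 - μ)/20, l = μ + w, ν = μ + 2w, θ = max (2ν) (1/3).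
-/

namespace Pool.Agent.Lib.NMB

open Finset Pool.Agent.Lib.EH3 Pool.Agent.Lib.TB Pool.Agent.Results.MP_00e23e_nt Pool.Agent.Lib.MI
open Pool.Agent.Lib.MX (Bd Mz Bd_nonneg Bd_mono rp_le rn_le log_le_T Tau_x)

/-- the parameters: m ≤ x^μ, N ∈ [x^ν, x^θ], ρ ~ x^l, W0 = x^w -/
def ParM (μ ν θ l w δ κ ε : ℝ) : Prop := (0 ≤ μ ∧ 0 < w ∧ μ + w ≤ l ∧ l + w ≤ ν) ∧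
  (2 * ν ≤ θ ∧ 1 / 3 ≤ θ ∧ 2 * θ + l + w ≤ 1) ∧ (0 ≤ δ ∧ δ ≤ ε) ∧ (0 < κ ∧ κ ≤ ε) ∧ 100000 * ε ≤ w

/-- the sizes of a dyadic block r ∈ (R, 2R], s ∈ (S, 2S] -/
def BlkM (ν θ δ κ ε x : ℝ) (M N R S : ℕ) : Prop :=
  (x ^ (ν - ε) ≤ N ∧ (N : ℝ) ≤ x ^ (θ + ε) ∧ x ^ (1 - ε) ≤ (M : ℝ) * N ∧ (M : ℝ) * N ≤ x) ∧ 1 ≤ S ∧
    (R : ℝ) ≤ N * x ^ (-(10 * ε)) ∧ (N : ℝ) * x ^ (-(10 * ε) - κ) ≤ 2 * R ∧ (R : ℝ) * S ≤ x ^ (1 / 2 + δ) ∧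
    x ^ (1 / 2 - ε / 2) ≤ 4 * ((R : ℝ) * S)

/-- the data of the pairs (r, s) ∈ P: reduced classes a r s, the divisor ρ r of r with a divisor m ≤ x^μ, the primes of ρ r/m and of
s are ≤ x^(w/32), those of r/ρ r are ≤ x^κ and smaller than all primes of s -/
def PrM (μ l w κ x : ℝ) (a : ℕ → ℕ → ℤ) (ρ : ℕ → ℕ) (R S R0 : ℕ) (P : Finset (ℕ × ℕ)) : Prop :=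
  (x ^ l ≤ 2 * (R0 : ℝ) ∧ (R0 : ℝ) ≤ x ^ (l + κ)) ∧
  ∀ w' ∈ P, (R < w'.1 ∧ w'.1 ≤ 2 * R ∧ S < w'.2 ∧ w'.2 ≤ 2 * S ∧ Squarefree (w'.1 * w'.2) ∧
      Int.gcd (a w'.1 w'.2) ((w'.1 * w'.2 : ℕ) : ℤ) = 1) ∧
    (ρ w'.1 ∣ w'.1 ∧ R0 < ρ w'.1 ∧ ρ w'.1 ≤ 2 * R0) ∧
    (∃ m : ℕ, m ∣ ρ w'.1 ∧ (m : ℝ) ≤ x ^ μ ∧ ∀ p : ℕ, p.Prime → p ∣ ρ w'.1 / m → (p : ℝ) ≤ x ^ (w / 32)) ∧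
    (∀ p : ℕ, p.Prime → p ∣ w'.2 → (p : ℝ) ≤ x ^ (w / 32)) ∧
    (∀ p : ℕ, p.Prime → p ∣ w'.1 / ρ w'.1 → (p : ℝ) ≤ x ^ κ) ∧
    ∀ p p' : ℕ, p.Prime → p'.Prime → p ∣ w'.1 / ρ w'.1 → p' ∣ w'.2 → p < p'

/-- the bound of the sums TG for all g ≤ x^(8ε) -/
def BiMStmt (μ ν θ l w δ κ ε : ℝ) : Prop := ∃ (C C0 x0 : ℝ) (A : ℕ), 0 < C ∧ 0 ≤ C0 ∧
  ∀ (x T : ℝ) (a : ℕ → ℕ → ℤ) (ρ : ℕ → ℕ) (g M N R S R0 Hm : ℕ) (P : Finset (ℕ × ℕ)), x0 ≤ x →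
  Tau (x ^ (30 : ℝ)) T → BlkM ν θ δ κ ε x M N R S → 1 ≤ R → R ≤ N → 1 ≤ g → (g : ℝ) ≤ x ^ (8 * ε) →
  (Hm : ℝ) ≤ x ^ (31 * ε) → (2 * (R : ℝ) * (S : ℝ) ^ 2 * N * Hm) ^ 12 ≤ x ^ (30 : ℝ) → PrM μ l w κ x a ρ R S R0 P →
  NLB.HgN a g R S N Hm ⌊x ^ (w / 4)⌋₊ P (C * T ^ A) (C0 * x ^ (-(30 * ε)))

/-- FINAL STATEMENT of the T-chapter (module BinM, helper28): for every choice of the parameters there is e0 > 0 such that the bound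
holds for all δ, κ, ε ≤ e0. -/
def BinMStmt : Prop := ∀ μ ν θ l w : ℝ, 0 < w → ∃ e0 : ℝ, 0 < e0 ∧ ∀ δ κ ε : ℝ, ε ≤ e0 →
  ParM μ ν θ l w δ κ ε → BiMStmt μ ν θ l w δ κ ε

/-- the saving of the far pairs -/
noncomputable def epM (w σ x : ℝ) (g R N R0 : ℕ) : ℝ :=
  x ^ (-σ) + 1 / (⌊x ^ (w / 4)⌋₊ : ℝ) + 1 / x ^ (w / 4) + (⌊x ^ (w / 4)⌋₊ : ℝ) / NLB.Qn g R N R0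

/-- Module NumM (theorem tNumM; pure numbers). Uses: nothing. MODEL: Lib/NLB/NumN.lean (helper3).
Proof. k = ⌈40/w⌉, σ = (w/16)/2^(k+1), e0 = min (σ/1000) (w/100000). κ, δ ≤ ε ≤ e0. x large (depending on all parameters and C2). R ≥ N x^(-10ε-κ)/2 ≥ x^(ν-12ε)/2 ≥ x^(l+κ) ≥ R0 ≥ x^l/2. S ≥ x^(1/2-ε/2)/(4R) ≥ x^(1/2-ε/2+10ε-θ-ε)/4 ≥ x^(1/2-θ)/4. 2 R g ≤ 2 N x^(-2ε) ≤ N. Z Δ^(2^(k+1)) = 1.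
4 W^2R^2g x^μ ≤ 4 x^(w/2-20ε+8ε+μ) N^2 ≤ x^l N^2/2 ≤ R0 N^2 (μ + w ≤ l); 8 R^2 g ≤ R0 N^2. C2 W^2Z^2g^2H^4 ≤ C2 x^(w/2+w/8+16ε+124ε) ≤ x^w. C2 (Zy)^2 = C2 x^(3w/16) ≤ x^(w/4). W/(C2 Z y) = x^(5w/32)/C2 ≥ x^(w/8); its k-th power ≥ x^5 ≥ 64 x^(2+4δ) ≥ 64 (R S)^2 S^2 (S ≤ R S ≤ x^(1/2+δ)).
8 R S^2 ≤ 4 (2 R S^2 N H) ≤ (2 R S^2 N H)^12 ≤ x^30. t0 ≤ x^(w/4) ≤ x^l x^(12ε)/2 ≤ Qn; t0/Qn ≤ 2 x^(w/4-l) ≤ 2 x^(-3w/4). epM ≤ x^(-σ) + 2 x^(-w/4) + x^(-w/4) + 2 x^(-3w/4) ≤ 6 x^(-σ), epM ≥ x^(-σ).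
(⌊x^κ⌋ + 1)^2 ≤ 4 x^(2κ); R0 sqrt(x^w)/(epM S^2) ≤ 16 x^(l+κ+w/2+σ-1+2θ) ≤ 16 x^(κ+σ-w/2) ≤ 16 x^(-σ); total ≤ 4 x^(2κ) 22 x^(-σ) ≤ 88 x^(-30ε) (2κ + 30ε ≤ σ). -/
def NumMStmt : Prop := ∀ μ ν θ l w : ℝ, 0 < w → ∃ (k : ℕ) (σ e0 : ℝ), 0 < σ ∧ 0 < e0 ∧ ∀ δ κ ε C2 : ℝ, ε ≤ e0 →
  ParM μ ν θ l w δ κ ε → 1 ≤ C2 →
  ∃ x0 : ℝ, 1 ≤ x0 ∧ ∀ (x : ℝ) (g H M N R S R0 : ℕ), x0 ≤ x → BlkM ν θ δ κ ε x M N R S → 1 ≤ R → 1 ≤ g →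
  (g : ℝ) ≤ x ^ (8 * ε) → 1 ≤ H → (H : ℝ) ≤ x ^ (31 * ε) → x ^ l ≤ 2 * (R0 : ℝ) →
  (R0 : ℝ) ≤ x ^ (l + κ) → (2 * (R : ℝ) * (S : ℝ) ^ 2 * N * H) ^ 12 ≤ x ^ (30 : ℝ) →
  (2 ≤ R ∧ 1 ≤ S ∧ 1 ≤ N ∧ 1 ≤ R0 ∧ R0 ≤ R ∧ R ≤ N ∧ 1 ≤ ⌊x ^ (w / 4)⌋₊ ∧ 2 * R * g ≤ N ∧
    8 * R ^ 2 * g ≤ R0 * N ^ 2 ∧ 8 * ((R : ℝ) * (S : ℝ) ^ 2) ≤ x ^ (30 : ℝ)) ∧
  (1 ≤ x ^ w ∧ 1 ≤ x ^ (w / 16) ∧ 1 ≤ x ^ (w / 32) ∧ x ^ κ ≤ x ^ (w / 32) ∧ 0 < x ^ (-σ) ∧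
    1 ≤ x ^ (w / 16) * (x ^ (-σ)) ^ (2 ^ (k + 1))) ∧
  4 * (x ^ (w / 4)) ^ 2 * (R : ℝ) ^ 2 * g * x ^ μ ≤ R0 * (N : ℝ) ^ 2 ∧
  C2 * ((x ^ (w / 4)) ^ 2 * (x ^ (w / 16)) ^ 2 * (g : ℝ) ^ 2 * (H : ℝ) ^ 4) ≤ x ^ w ∧
  C2 * (x ^ (w / 16) * x ^ (w / 32)) ^ 2 ≤ x ^ (w / 4) ∧
  64 * (R : ℝ) ^ 2 * (S : ℝ) ^ 4 ≤ (R0 : ℝ) * (x ^ (w / 4) / (C2 * (x ^ (w / 16) * x ^ (w / 32)))) ^ k ∧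
  (⌊x ^ (w / 4)⌋₊ : ℝ) ≤ NLB.Qn g R N R0 ∧
  ((⌊x ^ κ⌋₊ + 1 : ℕ) : ℝ) ^ 2 * ((R0 : ℝ) * Real.sqrt (x ^ w) / (epM w σ x g R N R0 * (S : ℝ) ^ 2) +
    epM w σ x g R N R0) ≤ 100 * x ^ (-(30 * ε))

end Pool.Agent.Lib.NMB
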